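import Pool.Agent.Helper30_L2.Defs

/-!
# The barycentric subdivision of the boundary of a convex polytope

The proper faces of a convex polytope `P` are its nonempty exposed faces different from `P`.  Two
proper faces are adjacent in `faceGraph P` if they are different and one contains the other.  The
cliques of this graph are the flags of proper faces, so its flag complex is the barycentric
subdivision of the boundary complex of `P`.
-/

namespace Pool.Agent.Poly

/-- The proper faces of a polytope: the nonempty exposed faces different from the polytope. -/
def ProperFace {E : Type} [NormedAddCommGroup E] [NormedSpace ℝ E] (P : Set E) : Type :=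
  {F : Set E // IsExposed ℝ P F ∧ F.Nonempty ∧ F ≠ P}

/-- The comparability graph of the proper faces. -/
def faceGraph {E : Type} [NormedAddCommGroup E] [NormedSpace ℝ E] (P : Set E) :
    SimpleGraph (ProperFace P) :=
  SimpleGraph.fromRel fun F G => F.1 ⊆ G.1

end Pool.Agent.Poly
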