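import Pool.Agent.Helper30_Poly.Quo

/-!
# The induction over the dimension
-/

namespace Pool.Agent.Poly

open Pool.Agent.Davis Pool.Agent.Helper30L2
open Module Filter Topology

set_option linter.unusedSectionVars false
set_option linter.style.haveILetI false

noncomputable section

/-- The boundaries of cones of dimension `d + 1` are good. -/
def StA (d : ℕ) : Prop :=
  ∀ (E V : Type) [Finite E] [AddCommGroup V] [Module ℝ V] [FiniteDimensional ℝ V]
    (ℓ : E → Dual ℝ V), Cone ℓ → finrank ℝ V = d + 1 → Good (Fc ℓ) (fg ℓ) d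

/-- The capped visible parts of the boundaries of cones of dimension `d + 1` are good. -/
def StB (d : ℕ) : Prop :=
  ∀ (E V : Type) [Finite E] [AddCommGroup V] [Module ℝ V] [FiniteDimensional ℝ V]
    (ℓ : E → Dual ℝ V) (q : V), Cone ℓ → finrank ℝ V = d + 1 → (∀ i, ℓ i q ≠ 0) →
    (∃ i, ℓ i q < 0) → (∃ i, 0 < ℓ i q) →
    GoodCap (fg ℓ) {Z | ∃ i ∈ Z.1, ℓ i q < 0} {Z | ∃ i ∈ Z.1, 0 < ℓ i q} d

theorem stA_zero : StA 0 := by
  intro E V _ _ _ _ ℓ hℓ hfr
  haveI : IsEmpty (Fc ℓ) := by
    constructor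
    rintro ⟨Z, ⟨x, hx, rfl⟩, hne, huniv⟩
    obtain ⟨p, hp⟩ := hℓ.solid
    obtain ⟨i, hi⟩ := hne
    have hp0 : p ≠ 0 := by
      rintro rfl
      have := hp i
      rw [map_zero] at this
      exact lt_irrefl _ this
    have hfr1 : finrank ℝ V = 1 := hfr
    obtain ⟨c, rfl⟩ := (finrank_eq_one_iff_of_nonzero' p hp0).mp hfr1 x
    rw [mem_zs, map_smul, smul_eq_mul] at hi
    rcases mul_eq_zero.mp hi with h | h
    · subst h
      apply huniv
      apply Set.eq_univ_of_forall
      intro j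
      rw [mem_zs, zero_smul, map_zero]
    · exact absurd h (hp i).ne'
  exact good_bij (fun x => isEmptyElim x) ⟨fun x => isEmptyElim x, fun y => isEmptyElim y⟩
    (fun x => isEmptyElim x) good_empty

theorem stB_zero : StB 0 := by
  intro E V _ _ _ _ ℓ q hℓ hfr _ h1 h2
  exfalso
  obtain ⟨i, hi⟩ := h1
  obtain ⟨j, hj⟩ := h2
  obtain ⟨p, hp⟩ := hℓ.solid
  have hp0 : p ≠ 0 := by
    rintro rfl
    have := hp i
    rw [map_zero] at this
    exact lt_irrefl _ this
  have hfr1 : finrank ℝ V = 1 := hfr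
  obtain ⟨c, rfl⟩ := (finrank_eq_one_iff_of_nonzero' p hp0).mp hfr1 q
  rw [map_smul, smul_eq_mul] at hi hj
  have hc1 : c < 0 := by
    by_contra hcon
    push Not at hcon
    have := mul_nonneg hcon (hp i).le
    linarith
  have := mul_neg_of_neg_of_pos hc1 (hp j)
  linarith

section step

variable {E V : Type} [Finite E] [AddCommGroup V] [Module ℝ V] [FiniteDimensional ℝ V]
  {ℓ : E → Dual ℝ V}

theorem finrank_fac {k : E} {d : ℕ} (hℓ : Cone ℓ) (hfr : finrank ℝ V = d + 1) :
    finrank ℝ (LinearMap.ker (ℓ k)) = d := by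
  obtain ⟨p, hp⟩ := hℓ.solid
  have h0 : ℓ k ≠ 0 := by
    intro h
    have := hp k
    rw [h, LinearMap.zero_apply] at this
    exact lt_irrefl _ this
  have := Module.Dual.finrank_ker_add_one_of_ne_zero h0
  omega

theorem finrank_quo {q : V} {d : ℕ} (hq : q ≠ 0) (hfr : finrank ℝ V = d + 1) :
    finrank ℝ (V ⧸ Submodule.span ℝ {q}) = d := by
  have h1 := Submodule.finrank_quotient_add_finrank (Submodule.span ℝ {q})
  rw [finrank_span_singleton hq] at h1
  omega

/-- The first crossing. -/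
theorem crossing (hℓ : Cone ℓ) (hirr : Irr ℓ) {q : V} (hgen : ∀ i, ℓ i q ≠ 0)
    (hneg : ∃ i, ℓ i q < 0) : ∃ (k : E) (q₀ p : V), (∀ i, 0 < ℓ i p) ∧ ℓ k q < 0 ∧ ℓ k q₀ = 0 ∧
      (∀ i, i ≠ k → (ℓ i q₀ < 0 ↔ ℓ i q < 0)) ∧ (∀ i, i ≠ k → ℓ i q₀ ≠ 0) := by
  classical
  haveI : Fintype E := Fintype.ofFinite E
  obtain ⟨p, hp⟩ := hℓ.solid
  have hM : ∀ m ∈ ((Finset.univ : Finset (E × E)).filter fun e => e.1 ≠ e.2).image
      (fun e => ℓ e.1 q • ℓ e.2 - ℓ e.2 q • ℓ e.1), m ≠ 0 := by
    intro m hm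
    rw [Finset.mem_image] at hm
    obtain ⟨⟨i, j⟩, hij, rfl⟩ := hm
    rw [Finset.mem_filter] at hij
    have hne : i ≠ j := hij.2
    obtain ⟨x, _, hx⟩ := hirr i
    intro h
    have h1 := congrArg (fun f : Dual ℝ V => f x) h
    simp only [LinearMap.sub_apply, LinearMap.smul_apply, smul_eq_mul,
      LinearMap.zero_apply] at h1
    have h2 : ℓ i x = 0 := by
      have : i ∈ zs ℓ x := by rw [hx]; rfl
      exact this
    rw [h2, mul_zero, sub_zero] at h1
    have h3 : ℓ j x = 0 := (mul_eq_zero.mp h1).resolve_left (hgen i)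
    have h4 : j ∈ zs ℓ x := h3
    rw [hx] at h4
    exact hne h4.symm
  obtain ⟨p', hp', hp2⟩ := exists_generic hp _ hM
  obtain ⟨k, hk, hmin⟩ := Set.exists_min_image {i | ℓ i q < 0} (fun i => - ℓ i q / ℓ i p')
    (Set.toFinite _) hneg
  have hk' : ℓ k q < 0 := hk
  set t : ℝ := - ℓ k q / ℓ k p' with ht
  have ht0 : 0 < t := div_pos (neg_pos.mpr hk') (hp' k)
  have hneg : ∀ i, i ≠ k → ℓ i q < 0 → ℓ i (q + t • p') < 0 := by
    intro i hik hi
    have h1 : t ≤ - ℓ i q / ℓ i p' := hmin i hi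
    have h2 : t ≠ - ℓ i q / ℓ i p' := by
      intro h
      have h3 := hp2 (ℓ i q • ℓ k - ℓ k q • ℓ i) (by
        rw [Finset.mem_image]
        exact ⟨(i, k), by simpa using hik, rfl⟩)
      apply h3
      rw [ht, div_eq_div_iff (hp' k).ne' (hp' i).ne'] at h
      simp only [LinearMap.sub_apply, LinearMap.smul_apply, smul_eq_mul]
      linarith
    have h3 : t < - ℓ i q / ℓ i p' := lt_of_le_of_ne h1 h2
    rw [lt_div_iff₀ (hp' i)] at h3
    rw [map_add, map_smul, smul_eq_mul]
    linarith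
  have hpos : ∀ i, 0 < ℓ i q → 0 < ℓ i (q + t • p') := by
    intro i hi
    rw [map_add, map_smul, smul_eq_mul]
    have := mul_pos ht0 (hp' i)
    linarith
  refine ⟨k, q + t • p', p', hp', hk', ?_, ?_, ?_⟩
  · rw [map_add, map_smul, smul_eq_mul, ht, div_mul_cancel₀ _ (hp' k).ne']
    ring
  · intro i hik
    rcases lt_or_gt_of_ne (hgen i) with h | h
    · exact ⟨fun _ => h, fun _ => hneg i hik h⟩
    · exact ⟨fun h2 => absurd h2 (hpos i h).not_gt, fun h2 => absurd h2 h.not_gt⟩
  · intro i hik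
    rcases lt_or_gt_of_ne (hgen i) with h | h
    · exact (hneg i hik h).ne
    · exact (hpos i h).ne'

theorem stB_irr {d : ℕ} (hA : StA d) (hB : StB d) (hℓ : Cone ℓ) (hirr : Irr ℓ)
    (hfr : finrank ℝ V = d + 1 + 1) (N : ℕ) : ∀ q : V, (∀ i, ℓ i q ≠ 0) →
      {i | ℓ i q < 0}.ncard = N → (∃ i, ℓ i q < 0) → (∃ i, 0 < ℓ i q) →
      GoodCap (fg ℓ) {Z | ∃ i ∈ Z.1, ℓ i q < 0} {Z | ∃ i ∈ Z.1, 0 < ℓ i q} (d + 1) := by
  induction N using Nat.strong_induction_on with
  | _ N ih =>
    intro q hgen hN hneg hpos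
    obtain ⟨k, q₀, p, hp, hkq, hk0, hsame, hne0⟩ := crossing hℓ hirr hgen hneg
    obtain ⟨j, hj⟩ := hpos
    have hjk : j ≠ k := by
      rintro rfl
      exact absurd hkq hj.not_gt
    have hpos0 : ∀ i, (0 < ℓ i q₀ ↔ 0 < ℓ i q) := by
      intro i
      by_cases hik : i = k
      · subst hik
        rw [hk0]
        exact ⟨fun h => absurd h (lt_irrefl _), fun h => absurd hkq h.not_gt⟩
      · have h1 := hsame i hik
        have h2 := hne0 i hik
        have h3 := hgen i
        constructor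
        · intro h
          rcases lt_or_gt_of_ne h3 with h4 | h4
          · exact absurd (h1.mpr h4) h.not_gt
          · exact h4
        · intro h
          rcases lt_or_gt_of_ne h2 with h4 | h4
          · exact absurd (h1.mp h4) h.not_gt
          · exact h4
    by_cases hex : ∃ i, ℓ i q₀ < 0
    · -- the step
      obtain ⟨i₀, hi₀⟩ := hex
      have hi₀k : i₀ ≠ k := by
        rintro rfl
        rw [hk0] at hi₀
        exact lt_irrefl _ hi₀
      obtain ⟨F, hF⟩ := singleton_face (hirr k) ⟨j, hjk⟩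
      have hsetA : {Z : Fc ℓ | ∃ i ∈ Z.1, ℓ i q < 0} =
          {Z : Fc ℓ | (∃ i ∈ Z.1, ℓ i q₀ < 0) ∨ k ∈ Z.1} := by
        ext Z
        constructor
        · rintro ⟨i, hi, hiq⟩
          by_cases hik : i = k
          · subst hik
            exact Or.inr hi
          · exact Or.inl ⟨i, hi, (hsame i hik).mpr hiq⟩
        · rintro (⟨i, hi, hiq⟩ | hi)
          · have hik : i ≠ k := by
              rintro rfl
              rw [hk0] at hiq
              exact lt_irrefl _ hiq
            exact ⟨i, hi, (hsame i hik).mp hiq⟩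
          · exact ⟨k, hi, hkq⟩
      have hsetB : {Z : Fc ℓ | ∃ i ∈ Z.1, 0 < ℓ i q} = {Z : Fc ℓ | ∃ i ∈ Z.1, 0 < ℓ i q₀} := by
        ext Z
        constructor
        · rintro ⟨i, hi, hiq⟩
          exact ⟨i, hi, (hpos0 i).mpr hiq⟩
        · rintro ⟨i, hi, hiq⟩
          exact ⟨i, hi, (hpos0 i).mp hiq⟩
      rw [hsetA, hsetB]
      refine step (u := fun Z : Fc ℓ => ∃ i ∈ Z.1, ℓ i q₀ < 0) (k := fun Z : Fc ℓ => k ∈ Z.1)
        (v := fun Z : Fc ℓ => ∃ i ∈ Z.1, 0 < ℓ i q₀) (f := F) ?_ ?_ ?_ ?_ ?_ ?_ ?_ ?_ ?_ ?_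
      · change k ∈ F.1
        rw [hF]
        rfl
      · rintro ⟨i, hi, hiq⟩
        rw [hF, Set.mem_singleton_iff] at hi
        subst hi
        rw [hk0] at hiq
        exact lt_irrefl _ hiq
      · rintro ⟨i, hi, hiq⟩
        rw [hF, Set.mem_singleton_iff] at hi
        subst hi
        rw [hk0] at hiq
        exact lt_irrefl _ hiq
      · intro Z
        rw [fg_adj, hF]
        constructor
        · rintro ⟨h1, h2 | h2⟩
          · exact ⟨Set.singleton_subset_iff.mp h2, fun h3 => h1 (by rw [h3, hF])⟩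
          · exfalso
            rcases Set.subset_singleton_iff_eq.mp h2 with h3 | h3
            · exact Z.2.2.1.ne_empty h3
            · exact h1 h3.symm
        · rintro ⟨h1, h2⟩
          refine ⟨fun h3 => h2 (Subtype.ext (by rw [hF, h3])), Or.inl ?_⟩
          exact Set.singleton_subset_iff.mpr h1
      · intro Z hkZ hZF
        by_contra hcon
        push Not at hcon
        apply hZF
        apply Subtype.ext
        rw [hF]
        apply Set.Subset.antisymm
        · intro i hi
          by_contra hik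
          exact hne0 i hik (le_antisymm (hcon.2 i hi) (hcon.1 i hi))
        · exact Set.singleton_subset_iff.mpr hkZ
      · intro Z W h
        rw [fg_adj] at h
        rcases h.2 with h1 | h1
        · left
          exact ⟨fun ⟨i, hi, hiq⟩ => ⟨i, h1 hi, hiq⟩, fun hi => h1 hi,
            fun ⟨i, hi, hiq⟩ => ⟨i, h1 hi, hiq⟩⟩
        · right
          exact ⟨fun ⟨i, hi, hiq⟩ => ⟨i, h1 hi, hiq⟩, fun hi => h1 hi,
            fun ⟨i, hi, hiq⟩ => ⟨i, h1 hi, hiq⟩⟩
      · -- the previous stage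
        have e1 : ∀ᶠ ε in 𝓝[>] (0 : ℝ), ∀ i, ℓ i q₀ < 0 → 0 < - ℓ i q₀ + ε * (- ℓ i p) := by
          apply Filter.eventually_all.mpr
          intro i
          by_cases h : ℓ i q₀ < 0
          · filter_upwards [ev (- ℓ i q₀) (- ℓ i p) (neg_pos.mpr h)] with ε hε _
            exact hε
          · exact Filter.Eventually.of_forall fun ε h2 => absurd h2 h
        obtain ⟨ε, hε, hε1⟩ := (ev_pos.and e1).exists
        have hs : ∀ i, (ℓ i (q₀ + ε • p) < 0 ↔ ℓ i q₀ < 0) := by
          intro i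
          rw [map_add, map_smul, smul_eq_mul]
          constructor
          · intro h
            have := mul_pos hε (hp i)
            linarith
          · intro h
            have := hε1 i h
            linarith
        have hs2 : ∀ i, (0 < ℓ i (q₀ + ε • p) ↔ i = k ∨ 0 < ℓ i q₀) := by
          intro i
          constructor
          · intro h
            by_cases hik : i = k
            · exact Or.inl hik
            · right
              rcases lt_or_gt_of_ne (hne0 i hik) with h2 | h2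
              · exact absurd ((hs i).mpr h2) h.not_gt
              · exact h2
          · intro h
            rw [map_add, map_smul, smul_eq_mul]
            have := mul_pos hε (hp i)
            rcases h with rfl | h
            · rw [hk0]
              linarith
            · linarith
        have hgen' : ∀ i, ℓ i (q₀ + ε • p) ≠ 0 := by
          intro i
          by_cases hik : i = k
          · exact ((hs2 i).mpr (Or.inl hik)).ne'
          · rcases lt_or_gt_of_ne (hne0 i hik) with h2 | h2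
            · exact ((hs i).mpr h2).ne
            · exact ((hs2 i).mpr (Or.inr h2)).ne'
        have hlt : {i | ℓ i (q₀ + ε • p) < 0}.ncard < N := by
          rw [← hN]
          apply Set.ncard_lt_ncard _ (Set.toFinite _)
          refine ⟨?_, ?_⟩
          · intro i hi
            have h1 : ℓ i q₀ < 0 := (hs i).mp hi
            have hik : i ≠ k := by
              rintro rfl
              rw [hk0] at h1
              exact lt_irrefl _ h1
            exact (hsame i hik).mp h1
          · intro h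
            have h1 : ℓ k (q₀ + ε • p) < 0 := h hkq
            rw [hs, hk0] at h1
            exact lt_irrefl _ h1
        have := ih _ hlt (q₀ + ε • p) hgen' rfl ⟨i₀, (hs i₀).mpr hi₀⟩
          ⟨k, (hs2 k).mpr (Or.inl rfl)⟩
        have eA : {Z : Fc ℓ | ∃ i ∈ Z.1, ℓ i (q₀ + ε • p) < 0} =
            {Z : Fc ℓ | ∃ i ∈ Z.1, ℓ i q₀ < 0} := by
          ext Z
          constructor
          · rintro ⟨i, hi, hiq⟩
            exact ⟨i, hi, (hs i).mp hiq⟩
          · rintro ⟨i, hi, hiq⟩
            exact ⟨i, hi, (hs i).mpr hiq⟩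
        have eB : {Z : Fc ℓ | ∃ i ∈ Z.1, 0 < ℓ i (q₀ + ε • p)} =
            {Z : Fc ℓ | k ∈ Z.1 ∨ ∃ i ∈ Z.1, 0 < ℓ i q₀} := by
          ext Z
          constructor
          · rintro ⟨i, hi, hiq⟩
            rcases (hs2 i).mp hiq with rfl | h
            · exact Or.inl hi
            · exact Or.inr ⟨i, hi, h⟩
          · rintro (hi | ⟨i, hi, hiq⟩)
            · exact ⟨k, hi, (hs2 k).mpr (Or.inl rfl)⟩
            · exact ⟨i, hi, (hs2 i).mpr (Or.inr hiq)⟩
        rw [eA, eB] at this
        exact this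
      · refine goodCap_fac q₀ hk0 ?_
        apply hB _ _ _ _ (fac_cone hℓ (hirr k)) (finrank_fac hℓ hfr)
        · intro i
          exact hne0 i i.2
        · exact ⟨⟨i₀, hi₀k⟩, hi₀⟩
        · exact ⟨⟨j, hjk⟩, (hpos0 j).mpr hj⟩
      · have hk0' : ℓ k (-q₀) = 0 := by rw [map_neg, hk0, neg_zero]
        have h1 := goodCap_fac (n := d) (-q₀) hk0' (by
          apply hB _ _ _ _ (fac_cone hℓ (hirr k)) (finrank_fac hℓ hfr)
          · intro i
            change ℓ i (-q₀) ≠ 0
            rw [map_neg]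
            exact neg_ne_zero.mpr (hne0 i i.2)
          · refine ⟨⟨j, hjk⟩, ?_⟩
            change ℓ j (-q₀) < 0
            rw [map_neg]
            exact neg_neg_of_pos ((hpos0 j).mpr hj)
          · refine ⟨⟨i₀, hi₀k⟩, ?_⟩
            change 0 < ℓ i₀ (-q₀)
            rw [map_neg]
            exact neg_pos.mpr hi₀)
        have eA : {Z : Fc ℓ | k ∈ Z.1 ∧ ∃ i ∈ Z.1, ℓ i (-q₀) < 0} =
            {Z : Fc ℓ | k ∈ Z.1 ∧ ∃ i ∈ Z.1, 0 < ℓ i q₀} := by
          simp only [map_neg, neg_lt_zero]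
        have eB : {Z : Fc ℓ | ∃ i ∈ Z.1, 0 < ℓ i (-q₀)} =
            {Z : Fc ℓ | ∃ i ∈ Z.1, ℓ i q₀ < 0} := by
          simp only [map_neg, neg_pos]
        rw [eA, eB] at h1
        exact h1
      · refine goodCap_quo hk0 (fun i hik => hne0 i hik) (hirr k) ⟨i₀, hi₀⟩
          ⟨j, (hpos0 j).mpr hj⟩ ?_
        apply hA
        · exact quo_cone hk0 (fun i hik => hne0 i hik) hℓ ⟨i₀, hi₀⟩ ⟨j, (hpos0 j).mpr hj⟩
        · apply finrank_quo _ hfr
          rintro rfl
          rw [map_zero] at hi₀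
          exact lt_irrefl _ hi₀
    · -- only one functional is negative
      push Not at hex
      have honly : ∀ i, i ≠ k → 0 < ℓ i q := by
        intro i hik
        rcases lt_or_gt_of_ne (hgen i) with h | h
        · exact absurd ((hsame i hik).mpr h) (hex i).not_gt
        · exact h
      have eA : {Z : Fc ℓ | ∃ i ∈ Z.1, ℓ i q < 0} = {Z : Fc ℓ | k ∈ Z.1} := by
        ext Z
        constructor
        · rintro ⟨i, hi, hiq⟩
          by_cases hik : i = k
          · subst hik
            exact hi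
          · exact absurd (honly i hik) hiq.not_gt
        · intro h
          exact ⟨k, h, hkq⟩
      rw [eA]
      apply goodCap_base (hirr k) ⟨j, hjk⟩
      · intro Z hkZ
        constructor
        · rintro ⟨i, hi, hiq⟩ h
          rw [h, Set.mem_singleton_iff] at hi
          subst hi
          exact absurd hkq hiq.not_gt
        · intro hZ
          by_contra hcon
          apply hZ
          apply Set.Subset.antisymm
          · intro i hi
            by_contra hik
            exact hcon ⟨i, hi, honly i hik⟩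
          · exact Set.singleton_subset_iff.mpr hkZ
      · exact hA _ _ _ (fac_cone hℓ (hirr k)) (finrank_fac hℓ hfr)

end step

theorem stB_succ {d : ℕ} (hA : StA d) (hB : StB d) : StB (d + 1) := by
  intro E V _ _ _ _ ℓ q hℓ hfr hgen hneg hpos
  obtain ⟨S, hS, hirr⟩ := exists_irr hℓ
  have hcone := sub_cone hS hℓ
  apply goodCap_sub hS hℓ
  have h0 : Pos ℓ 0 := fun i => by rw [map_zero]
  have hz : ∀ i, i ∈ zs ℓ 0 := fun i => by rw [mem_zs, map_zero]
  apply stB_irr hA hB hcone hirr hfr _ q _ rfl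
  · obtain ⟨i, hi⟩ := hneg
    obtain ⟨i', _, h⟩ := (vis_sub_iff hS h0 q).mp ⟨i, hz i, hi⟩
    exact ⟨i', h⟩
  · obtain ⟨i, hi⟩ := hpos
    obtain ⟨i', _, h⟩ := (inv_sub_iff hS h0 q).mp ⟨i, hz i, hi⟩
    exact ⟨i', h⟩
  · exact fun i => hgen i

theorem stA_succ {d : ℕ} (hB : StB (d + 1)) : StA (d + 1) := by
  intro E V _ _ _ _ ℓ hℓ hfr
  obtain ⟨S, hS, hirr⟩ := exists_irr hℓ
  have hcone := sub_cone hS hℓ
  apply good_sub hS hℓ
  obtain ⟨p, hp⟩ := hcone.solid
  -- there are at least two functionals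
  obtain ⟨k⟩ : Nonempty S := by
    by_contra hcon
    rw [not_nonempty_iff] at hcon
    have hsub : Subsingleton V := ⟨fun x y => by
      rw [hcone.pointed x fun i => hcon.elim i, hcone.pointed y fun i => hcon.elim i]⟩
    rw [finrank_zero_of_subsingleton] at hfr
    omega
  obtain ⟨j, hj⟩ : ∃ j : S, j ≠ k := by
    by_contra hcon
    push Not at hcon
    have h1 : finrank ℝ (LinearMap.ker (sub ℓ S k)) = d + 1 := finrank_fac hcone hfr
    have hsub : Subsingleton (LinearMap.ker (sub ℓ S k)) := ⟨fun x y => by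
      have key : ∀ z : LinearMap.ker (sub ℓ S k), z = 0 := by
        intro z
        apply Subtype.ext
        apply hcone.pointed
        intro i
        rw [hcon i]
        exact LinearMap.mem_ker.mp z.2
      rw [key x, key y]⟩
    rw [finrank_zero_of_subsingleton] at h1
    omega
  obtain ⟨x, hx, hxz⟩ := hirr k
  have hkx : sub ℓ S k x = 0 := by
    have : k ∈ zs (sub ℓ S) x := by rw [hxz]; rfl
    exact this
  have hix : ∀ i, i ≠ k → 0 < sub ℓ S i x := by
    intro i hik
    refine lt_of_le_of_ne (hx i) ?_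
    intro h
    have h2 : i ∈ zs (sub ℓ S) x := h.symm
    rw [hxz] at h2
    exact hik h2
  have e1 : ∀ᶠ ε in 𝓝[>] (0 : ℝ), ∀ i, i ≠ k → 0 < sub ℓ S i x + ε * (- sub ℓ S i p) := by
    apply Filter.eventually_all.mpr
    intro i
    by_cases h : i = k
    · exact Filter.Eventually.of_forall fun ε h2 => absurd h h2
    · filter_upwards [ev (sub ℓ S i x) (- sub ℓ S i p) (hix i h)] with ε hε _
      exact hε
  obtain ⟨ε, hε, hε1⟩ := (ev_pos.and e1).exists
  set q : V := - x + ε • p with hq
  have hqk : 0 < sub ℓ S k q := by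
    rw [hq, map_add, map_neg, map_smul, hkx, smul_eq_mul]
    have := mul_pos hε (hp k)
    linarith
  have hqi : ∀ i, i ≠ k → sub ℓ S i q < 0 := by
    intro i hik
    rw [hq, map_add, map_neg, map_smul, smul_eq_mul]
    have := hε1 i hik
    linarith
  have h1 := hB _ _ (sub ℓ S) q hcone hfr (by
    intro i
    by_cases hik : i = k
    · subst hik
      exact hqk.ne'
    · exact (hqi i hik).ne) ⟨j, hqi j hj⟩ ⟨k, hqk⟩
  have eA : {Z : Fc (sub ℓ S) | ∃ i ∈ Z.1, sub ℓ S i q < 0} =
      {Z : Fc (sub ℓ S) | ∃ i ∈ Z.1, i ≠ k} := by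
    ext Z
    constructor
    · rintro ⟨i, hi, hiq⟩
      refine ⟨i, hi, ?_⟩
      rintro rfl
      exact absurd hqk hiq.not_gt
    · rintro ⟨i, hi, hik⟩
      exact ⟨i, hi, hqi i hik⟩
  have eB : {Z : Fc (sub ℓ S) | ∃ i ∈ Z.1, 0 < sub ℓ S i q} =
      {Z : Fc (sub ℓ S) | k ∈ Z.1} := by
    ext Z
    constructor
    · rintro ⟨i, hi, hiq⟩
      by_cases hik : i = k
      · subst hik
        exact hi
      · exact absurd (hqi i hik) hiq.not_gt
    · intro hi
      exact ⟨k, hi, hqk⟩
  rw [eA, eB] at h1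
  exact good_of_cap (hirr k) ⟨j, hj⟩ h1

theorem stAB (d : ℕ) : StA d ∧ StB d := by
  induction d with
  | zero => exact ⟨stA_zero, stB_zero⟩
  | succ d ih =>
    have hB := stB_succ ih.1 ih.2
    exact ⟨stA_succ hB, hB⟩

/-- The comparability graph of the proper faces of a pointed cone with interior points is good. -/
theorem good_cone {E V : Type} [Finite E] [AddCommGroup V] [Module ℝ V] [FiniteDimensional ℝ V]
    {ℓ : E → Dual ℝ V} (hℓ : Cone ℓ) {d : ℕ} (hfr : finrank ℝ V = d + 1) :
    Good (Fc ℓ) (fg ℓ) d :=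
  (stAB d).1 E V ℓ hℓ hfr

end

end Pool.Agent.Poly
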