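import Pool.Agent.Helper30_Poly.Defs
import Pool.Agent.Helper30_Poly.Induct

/-!
# The proper faces of a polytope and the faces of a cone
-/

namespace Pool.Agent.Poly

open Pool.Agent.Davis Pool.Agent.Helper30L2
open Module

set_option linter.unusedSectionVars false
set_option linter.style.haveILetI false

noncomputable section

variable {E : Type} [NormedAddCommGroup E] [NormedSpace ℝ E] [FiniteDimensional ℝ E]

/-- The functional `(φ, c) ↦ c - φ v`. -/
def pol (v : E) : Dual ℝ (StrongDual ℝ E × ℝ) where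
  toFun w := w.2 - w.1 v
  map_add' := by
    intro w z
    simp only [Prod.fst_add, Prod.snd_add, add_apply]
    ring
  map_smul' := by
    intro c w
    simp only [Prod.smul_fst, Prod.smul_snd, smul_apply, smul_eq_mul,
      RingHom.id_apply]
    ring

theorem pol_apply (v : E) (φ : StrongDual ℝ E) (c : ℝ) : pol v (φ, c) = c - φ v := rfl

/-- The family of all vertices. -/
def pf (s : Finset E) : s → Dual ℝ (StrongDual ℝ E × ℝ) := fun v => pol (v : E)

theorem pf_apply (s : Finset E) (v : s) (φ : StrongDual ℝ E) (c : ℝ) :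
    pf s v (φ, c) = c - φ v := rfl

theorem finrank_pf : finrank ℝ (StrongDual ℝ E × ℝ) = finrank ℝ E + 1 := by
  rw [Module.finrank_prod, Module.finrank_self]
  congr 1
  rw [← (LinearMap.toContinuousLinearMap (𝕜 := ℝ) (E := E) (F' := ℝ)).finrank_eq]
  exact Subspace.dual_finrank_eq

theorem hull_le {s : Finset E} {φ : StrongDual ℝ E} {c : ℝ} (h : ∀ v ∈ s, φ v ≤ c) {x : E}
    (hx : x ∈ convexHull ℝ (s : Set E)) : φ x ≤ c := by
  have h1 : convexHull ℝ (s : Set E) ⊆ {x | φ x ≤ c} := by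
    apply convexHull_min
    · intro v hv
      exact h v hv
    · exact convex_halfSpace_le φ.toLinearMap.isLinear c
  exact h1 hx

theorem hull_lt {s : Finset E} {φ : StrongDual ℝ E} {c : ℝ} (h : ∀ v ∈ s, φ v < c) {x : E}
    (hx : x ∈ convexHull ℝ (s : Set E)) : φ x < c := by
  have h1 : convexHull ℝ (s : Set E) ⊆ {x | φ x < c} := by
    apply convexHull_min
    · intro v hv
      exact h v hv
    · exact convex_halfSpace_lt φ.toLinearMap.isLinear c
  exact h1 hx

theorem hull_eq {s : Finset E} {φ : StrongDual ℝ E} {c : ℝ} (h : ∀ v ∈ s, φ v = c) {x : E}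
    (hx : x ∈ convexHull ℝ (s : Set E)) : φ x = c := by
  apply le_antisymm
  · exact hull_le (fun v hv => (h v hv).le) hx
  · have := hull_le (φ := -φ) (c := -c) (fun v hv => by
      rw [neg_apply, h v hv]) hx
    rw [neg_apply] at this
    linarith

theorem pf_cone {s : Finset E} (hs : (interior (convexHull ℝ (s : Set E))).Nonempty) :
    Cone (pf s) := by
  refine ⟨?_, ?_⟩
  · rintro ⟨φ, c⟩ h
    have h1 : ∀ v ∈ s, φ v = c := by
      intro v hv
      have := h ⟨v, hv⟩
      rw [pf_apply] at this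
      change c - φ v = 0 at this
      linarith
    obtain ⟨x₀, hx₀⟩ := hs
    have h2 : φ = 0 := by
      ext y
      rw [zero_apply]
      have hcont : Filter.Tendsto (fun t : ℝ => x₀ + t • y) (nhds 0) (nhds x₀) := by
        have : Filter.Tendsto (fun t : ℝ => x₀ + t • y) (nhds 0) (nhds (x₀ + (0 : ℝ) • y)) := by
          apply Continuous.tendsto
          fun_prop
        rwa [zero_smul, add_zero] at this
      have hev : ∀ᶠ t in nhds (0 : ℝ), x₀ + t • y ∈ interior (convexHull ℝ (s : Set E)) :=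
        hcont.eventually (isOpen_interior.mem_nhds hx₀)
      rw [Metric.eventually_nhds_iff] at hev
      obtain ⟨ε, hε, hev⟩ := hev
      have h3 : x₀ + (ε / 2) • y ∈ interior (convexHull ℝ (s : Set E)) := by
        apply hev
        rw [Real.dist_eq, sub_zero, abs_of_pos (by positivity)]
        linarith
      have h4 := hull_eq h1 (interior_subset h3)
      have h5 := hull_eq h1 (interior_subset hx₀)
      rw [map_add, map_smul, h5, smul_eq_mul] at h4
      have h6 : ε / 2 * φ y = 0 := by linarith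
      exact (mul_eq_zero.mp h6).resolve_left (by positivity)
    have h7 := hull_eq h1 (interior_subset hx₀)
    rw [h2, zero_apply] at h7
    rw [h2, ← h7]
    rfl
  · refine ⟨(0, 1), ?_⟩
    intro v
    rw [pf_apply]
    simp

theorem pf_Pos {s : Finset E} {φ : StrongDual ℝ E} {c : ℝ} :
    Pos (pf s) (φ, c) ↔ ∀ v ∈ s, φ v ≤ c := by
  constructor
  · intro h v hv
    have := h ⟨v, hv⟩
    rw [pf_apply] at this
    change 0 ≤ c - φ v at this
    linarith
  · intro h v
    rw [pf_apply]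
    have := h v v.2
    linarith

theorem pf_zs {s : Finset E} {φ : StrongDual ℝ E} {c : ℝ} {v : s} :
    v ∈ zs (pf s) (φ, c) ↔ φ v = c := by
  rw [mem_zs, pf_apply, sub_eq_zero]
  exact eq_comm

/-- The functional and the maximum defining a face. -/
theorem face_data {s : Finset E} (F : ProperFace (convexHull ℝ (s : Set E))) :
    ∃ (φ : StrongDual ℝ E) (c : ℝ), (∀ v ∈ s, φ v ≤ c) ∧
      F.1 = {x ∈ convexHull ℝ (s : Set E) | φ x = c} := by
  obtain ⟨F, hF, hne, hne2⟩ := F
  obtain ⟨φ, hφ⟩ := hF hne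
  obtain ⟨x₀, hx₀⟩ := hne
  have h0 : x₀ ∈ convexHull ℝ (s : Set E) ∧ ∀ y ∈ convexHull ℝ (s : Set E), φ y ≤ φ x₀ := by
    rw [hφ] at hx₀
    exact hx₀
  refine ⟨φ, φ x₀, ?_, ?_⟩
  · intro v hv
    exact h0.2 v (subset_convexHull ℝ _ hv)
  · change F = _
    rw [hφ]
    ext x
    constructor
    · rintro ⟨h1, h2⟩
      exact ⟨h1, le_antisymm (h0.2 x h1) (h2 x₀ h0.1)⟩
    · rintro ⟨h1, h2⟩
      refine ⟨h1, ?_⟩
      intro y hy
      rw [h2]
      exact h0.2 y hy

theorem face_mem {s : Finset E} {φ : StrongDual ℝ E} {c : ℝ} (h : ∀ v ∈ s, φ v ≤ c) {x : E}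
    (hx : x ∈ convexHull ℝ (s : Set E)) (hxc : φ x = c) :
    ∃ w : E → ℝ, (∀ y ∈ s, 0 ≤ w y) ∧ ∑ y ∈ s, w y = 1 ∧ ∑ y ∈ s, w y • y = x ∧
      ∀ y ∈ s, φ y ≠ c → w y = 0 := by
  rw [Finset.mem_convexHull] at hx
  obtain ⟨w, h1, h2, h3⟩ := hx
  rw [Finset.centerMass_eq_of_sum_1 _ _ h2] at h3
  simp only [id] at h3
  refine ⟨w, h1, h2, h3, ?_⟩
  have h4 : ∑ y ∈ s, w y * (c - φ y) = 0 := by
    have h5 : ∑ y ∈ s, w y * (c - φ y) = c * ∑ y ∈ s, w y - φ (∑ y ∈ s, w y • y) := by
      rw [map_sum, Finset.mul_sum, ← Finset.sum_sub_distrib]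
      refine Finset.sum_congr rfl fun y _ => ?_
      rw [map_smul, smul_eq_mul]
      ring
    rw [h5, h2, h3, hxc]
    ring
  have h5 := (Finset.sum_eq_zero_iff_of_nonneg (fun y hy =>
    mul_nonneg (h1 y hy) (sub_nonneg.mpr (h y hy)))).mp h4
  intro y hy hne
  have h6 := h5 y hy
  rcases mul_eq_zero.mp h6 with h7 | h7
  · exact h7
  · exact absurd (by linarith) hne

/-- The vertices in a face. -/
def vs (s : Finset E) (F : Set E) : Set s := {v | (v : E) ∈ F}

theorem vs_face {s : Finset E} (F : ProperFace (convexHull ℝ (s : Set E))) :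
    (∃ x, Pos (pf s) x ∧ zs (pf s) x = vs s F.1) ∧ (vs s F.1).Nonempty ∧
      vs s F.1 ≠ Set.univ := by
  obtain ⟨φ, c, h1, h2⟩ := face_data F
  have h3 : zs (pf s) (φ, c) = vs s F.1 := by
    ext v
    rw [pf_zs, h2]
    constructor
    · intro h
      exact ⟨subset_convexHull ℝ _ v.2, h⟩
    · intro h
      exact h.2
  refine ⟨⟨(φ, c), pf_Pos.mpr h1, h3⟩, ?_, ?_⟩
  · rw [← h3]
    by_contra hcon
    rw [Set.not_nonempty_iff_eq_empty] at hcon
    have h4 : ∀ v ∈ s, φ v < c := by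
      intro v hv
      refine lt_of_le_of_ne (h1 v hv) ?_
      intro h5
      have h6 : (⟨v, hv⟩ : s) ∈ zs (pf s) (φ, c) := pf_zs.mpr h5
      rw [hcon] at h6
      exact h6
    obtain ⟨x₀, hx₀⟩ := F.2.2.1
    rw [h2] at hx₀
    exact (hull_lt h4 hx₀.1).ne hx₀.2
  · rw [← h3]
    intro h4
    apply F.2.2.2
    rw [h2]
    have h5 : ∀ v ∈ s, φ v = c := by
      intro v hv
      have h6 : (⟨v, hv⟩ : s) ∈ zs (pf s) (φ, c) := by rw [h4]; trivial
      exact pf_zs.mp h6
    ext x
    constructor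
    · exact fun h => h.1
    · exact fun h => ⟨h, hull_eq h5 h⟩

theorem vs_le {s : Finset E} (F G : ProperFace (convexHull ℝ (s : Set E))) :
    vs s F.1 ⊆ vs s G.1 ↔ F.1 ⊆ G.1 := by
  constructor
  · intro h x hx
    obtain ⟨φ, c, h1, h2⟩ := face_data F
    obtain ⟨ψ, e, g1, g2⟩ := face_data G
    rw [h2] at hx
    obtain ⟨w, w1, w2, w3, w4⟩ := face_mem h1 hx.1 hx.2
    rw [g2]
    refine ⟨hx.1, ?_⟩
    rw [← w3, map_sum]
    have h5 : ∀ y ∈ s, ψ (w y • y) = e * w y := by
      intro y hy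
      rw [map_smul, smul_eq_mul]
      by_cases hyc : φ y = c
      · have h6 : (⟨y, hy⟩ : s) ∈ vs s F.1 := by
          change y ∈ F.1
          rw [h2]
          exact ⟨subset_convexHull ℝ _ hy, hyc⟩
        have h7 : y ∈ G.1 := h h6
        rw [g2] at h7
        rw [h7.2]
        ring
      · rw [w4 y hy hyc]
        ring
    rw [Finset.sum_congr rfl h5, ← Finset.mul_sum, w2, mul_one]
  · intro h v hv
    exact h hv

theorem vs_lift {s : Finset E} (Z : Fc (pf s)) :
    ∃ F : ProperFace (convexHull ℝ (s : Set E)), vs s F.1 = Z.1 := by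
  obtain ⟨Z, ⟨⟨φ, c⟩, hx, rfl⟩, hne, huniv⟩ := Z
  rw [pf_Pos] at hx
  obtain ⟨v, hv⟩ := hne
  have hvc : φ v = c := pf_zs.mp hv
  have h2 : {x ∈ convexHull ℝ (s : Set E) | φ x = c} =
      {x ∈ convexHull ℝ (s : Set E) | ∀ y ∈ convexHull ℝ (s : Set E), φ y ≤ φ x} := by
    ext x
    constructor
    · rintro ⟨h1, h2⟩
      refine ⟨h1, ?_⟩
      intro y hy
      rw [h2]
      exact hull_le hx hy
    · rintro ⟨h1, h2⟩
      refine ⟨h1, le_antisymm (hull_le hx h1) ?_⟩
      rw [← hvc]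
      exact h2 v (subset_convexHull ℝ _ v.2)
  have h3 : vs s {x ∈ convexHull ℝ (s : Set E) | φ x = c} = zs (pf s) (φ, c) := by
    ext w
    rw [pf_zs]
    constructor
    · exact fun h => h.2
    · exact fun h => ⟨subset_convexHull ℝ _ w.2, h⟩
  refine ⟨⟨{x ∈ convexHull ℝ (s : Set E) | φ x = c}, ?_, ?_, ?_⟩, h3⟩
  · intro _
    exact ⟨φ, h2⟩
  · exact ⟨v, subset_convexHull ℝ _ v.2, hvc⟩
  · intro h4
    apply huniv
    rw [← h3, h4]
    apply Set.eq_univ_of_forall
    intro w
    exact subset_convexHull ℝ _ w.2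

theorem faceGraph_adj {P : Set E} {F G : ProperFace P} :
    (faceGraph P).Adj F G ↔ F.1 ≠ G.1 ∧ (F.1 ⊆ G.1 ∨ G.1 ⊆ F.1) := by
  unfold faceGraph
  rw [SimpleGraph.fromRel_adj]
  constructor
  · rintro ⟨h1, h2⟩
    exact ⟨fun h => h1 (Subtype.ext h), h2⟩
  · rintro ⟨h1, h2⟩
    exact ⟨fun h => h1 (congrArg _ h), h2⟩

theorem good_polytope {P : Set E} (hP : ∃ s : Finset E, P = convexHull ℝ (s : Set E))
    (hint : (interior P).Nonempty) : Good (ProperFace P) (faceGraph P) (finrank ℝ E) := by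
  obtain ⟨s, rfl⟩ := hP
  have h := good_cone (pf_cone hint) finrank_pf
  have hinj : ∀ F G : ProperFace (convexHull ℝ (s : Set E)), vs s F.1 = vs s G.1 → F.1 = G.1 := by
    intro F G hFG
    apply Set.Subset.antisymm
    · exact (vs_le F G).mp hFG.le
    · exact (vs_le G F).mp hFG.ge
  refine good_bij (fun F => (⟨vs s F.1, vs_face F⟩ : Fc (pf s))) ⟨?_, ?_⟩ ?_ h
  · intro F G hFG
    exact Subtype.ext (hinj F G (congrArg Subtype.val hFG))
  · intro Z
    obtain ⟨F, hF⟩ := vs_lift Z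
    exact ⟨F, Subtype.ext hF⟩
  · intro F G
    rw [faceGraph_adj, fg_adj]
    change _ ↔ vs s F.1 ≠ vs s G.1 ∧ (vs s F.1 ⊆ vs s G.1 ∨ vs s G.1 ⊆ vs s F.1)
    rw [vs_le F G, vs_le G F]
    constructor
    · rintro ⟨h1, h2⟩
      exact ⟨fun h3 => h1 (hinj F G h3), h2⟩
    · rintro ⟨h1, h2⟩
      exact ⟨fun h3 => h1 (by rw [h3]), h2⟩

/-- The proper faces of a polytope form a finite set. -/
theorem properFace_finite {P : Set E} (hP : ∃ s : Finset E, P = convexHull ℝ (s : Set E))
    (hint : (interior P).Nonempty) : Finite (ProperFace P) :=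
  (good_polytope hP hint).1

theorem polytope_hereditary {P : Set E} (hP : ∃ s : Finset E, P = convexHull ℝ (s : Set E))
    (hint : (interior P).Nonempty) [Fintype (ProperFace P)] :
    Hereditary (faceGraph P) (finrank ℝ E) := by
  classical
  exact hereditary_iff.mpr (good_polytope hP hint).2

theorem polytope_singer {P : Set E} (hP : ∃ s : Finset E, P = convexHull ℝ (s : Set E))
    (hint : (interior P).Nonempty) [Fintype (ProperFace P)] :
    Singer (faceGraph P) (finrank ℝ E) := by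
  classical
  have h1 : HS (faceGraph P) (finrank ℝ E) Finset.univ := (good_polytope hP hint).2
  exact singer_iff'.mpr h1.sing

end

end Pool.Agent.Poly
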