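import Pool.Agent.Helper30_Poly.Step

/-!
# Polyhedral cones and their faces
-/

namespace Pool.Agent.Poly

open Pool.Agent.Davis Pool.Agent.Helper30L2
open Module Filter Topology

set_option linter.unusedSectionVars false

noncomputable section

section defs

variable {E : Type} {V : Type} [AddCommGroup V] [Module ℝ V]

/-- The indices of the functionals that vanish at `x`. -/
def zs (ℓ : E → Dual ℝ V) (x : V) : Set E := {i | ℓ i x = 0}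

/-- The point `x` is in the cone. -/
def Pos (ℓ : E → Dual ℝ V) (x : V) : Prop := ∀ i, 0 ≤ ℓ i x

/-- The proper faces of the cone, given by the functionals that vanish on them. -/
abbrev Fc (ℓ : E → Dual ℝ V) : Type :=
  {Z : Set E // (∃ x, Pos ℓ x ∧ zs ℓ x = Z) ∧ Z.Nonempty ∧ Z ≠ Set.univ}

/-- The comparability graph of the proper faces. -/
def fg (ℓ : E → Dual ℝ V) : SimpleGraph (Fc ℓ) := SimpleGraph.fromRel fun Z Z' => Z.1 ⊆ Z'.1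

theorem mem_zs {ℓ : E → Dual ℝ V} {x : V} {i : E} : i ∈ zs ℓ x ↔ ℓ i x = 0 := Iff.rfl

theorem fg_adj {ℓ : E → Dual ℝ V} {Z W : Fc ℓ} :
    (fg ℓ).Adj Z W ↔ Z.1 ≠ W.1 ∧ (Z.1 ⊆ W.1 ∨ W.1 ⊆ Z.1) := by
  unfold fg
  rw [SimpleGraph.fromRel_adj]
  constructor
  · rintro ⟨h1, h2⟩
    exact ⟨fun h => h1 (Subtype.ext h), h2⟩
  · rintro ⟨h1, h2⟩
    exact ⟨fun h => h1 (congrArg _ h), h2⟩

/-- The cone is pointed and has interior points. -/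
structure Cone (ℓ : E → Dual ℝ V) : Prop where
  pointed : ∀ x, (∀ i, ℓ i x = 0) → x = 0
  solid : ∃ p, ∀ i, 0 < ℓ i p

/-- Every functional defines a facet. -/
def Irr (ℓ : E → Dual ℝ V) : Prop := ∀ k, ∃ x, Pos ℓ x ∧ zs ℓ x = {k}

end defs

section eps

theorem ev (a b : ℝ) (h : 0 < a) : ∀ᶠ ε in 𝓝[>] (0 : ℝ), 0 < a + ε * b := by
  have h1 : Tendsto (fun ε : ℝ => a + ε * b) (𝓝 0) (𝓝 (a + 0 * b)) := by
    apply Tendsto.const_add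
    exact (continuous_id.mul continuous_const).tendsto 0
  rw [zero_mul, add_zero] at h1
  exact (h1.mono_left nhdsWithin_le_nhds).eventually (lt_mem_nhds h)

theorem ev_pos : ∀ᶠ ε in 𝓝[>] (0 : ℝ), 0 < ε := eventually_mem_nhdsWithin

variable {E : Type} [Finite E] {V : Type} [AddCommGroup V] [Module ℝ V]

theorem ev_Pos {ℓ : E → Dual ℝ V} {x y : V} (hx : Pos ℓ x) (h : ∀ i, ℓ i x = 0 → 0 ≤ ℓ i y) :
    ∀ᶠ ε in 𝓝[>] (0 : ℝ), Pos ℓ (x + ε • y) := by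
  apply Filter.eventually_all.mpr
  intro i
  rcases (hx i).eq_or_lt with h0 | h0
  · filter_upwards [ev_pos] with ε hε
    rw [map_add, map_smul, ← h0, zero_add]
    exact mul_nonneg hε.le (h i h0.symm)
  · filter_upwards [ev _ (ℓ i y) h0] with ε hε
    rw [map_add, map_smul]
    exact hε.le

theorem exists_Pos {ℓ : E → Dual ℝ V} {x y : V} (hx : Pos ℓ x) (h : ∀ i, ℓ i x = 0 → 0 ≤ ℓ i y) :
    ∃ ε : ℝ, 0 < ε ∧ Pos ℓ (x + ε • y) := by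
  obtain ⟨ε, h1, h2⟩ := (ev_pos.and (ev_Pos hx h)).exists
  exact ⟨ε, h1, h2⟩

theorem exists_generic {ℓ : E → Dual ℝ V} {p : V} (hp : ∀ i, 0 < ℓ i p)
    (M : Finset (Dual ℝ V)) (hM : ∀ m ∈ M, m ≠ 0) :
    ∃ p', (∀ i, 0 < ℓ i p') ∧ ∀ m ∈ M, m p' ≠ 0 := by
  classical
  induction M using Finset.induction_on with
  | empty => exact ⟨p, hp, by simp⟩
  | insert m M _ ih =>
    obtain ⟨p', h1, h2⟩ := ih fun m' hm' => hM m' (Finset.mem_insert_of_mem hm')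
    by_cases h3 : m p' = 0
    · have h4 := hM m (Finset.mem_insert_self _ _)
      obtain ⟨w, hw⟩ : ∃ w, m w ≠ 0 := by
        by_contra hcon
        push Not at hcon
        exact h4 (LinearMap.ext hcon)
      have e1 : ∀ᶠ ε in 𝓝[>] (0 : ℝ), ∀ i, 0 < ℓ i p' + ε * ℓ i w :=
        Filter.eventually_all.mpr fun i => ev _ _ (h1 i)
      have e2 : ∀ᶠ ε in 𝓝[>] (0 : ℝ), ∀ m' ∈ M, 0 < m' p' * m' p' + ε * (m' p' * m' w) := by
        rw [Filter.eventually_all_finset]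
        intro m' hm'
        exact ev _ _ (mul_self_pos.mpr (h2 m' hm'))
      obtain ⟨ε, ⟨h5, h6⟩, h7⟩ := ((ev_pos.and e1).and e2).exists
      refine ⟨p' + ε • w, ?_, ?_⟩
      · intro i
        rw [map_add, map_smul]
        exact h6 i
      · intro m' hm'
        rw [Finset.mem_insert] at hm'
        rw [map_add, map_smul, smul_eq_mul]
        rcases hm' with rfl | hm'
        · rw [h3, zero_add]
          exact mul_ne_zero h5.ne' hw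
        · intro h8
          have h9 := h7 m' hm'
          have h10 : m' p' * m' p' + ε * (m' p' * m' w) = m' p' * (m' p' + ε * m' w) := by ring
          rw [h10, h8, mul_zero] at h9
          exact lt_irrefl _ h9
    · refine ⟨p', h1, ?_⟩
      intro m' hm'
      rw [Finset.mem_insert] at hm'
      rcases hm' with rfl | hm'
      · exact h3
      · exact h2 m' hm'

end eps

section transfer

variable {E₁ E₂ : Type} {V₁ V₂ : Type} [AddCommGroup V₁] [Module ℝ V₁] [AddCommGroup V₂]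
  [Module ℝ V₂] {ℓ₁ : E₁ → Dual ℝ V₁} {ℓ₂ : E₂ → Dual ℝ V₂}

theorem good_faces (T : Set E₁ → Set E₂) {A₁ B₁ : Set (Fc ℓ₁)} {A₂ B₂ : Set (Fc ℓ₂)} {n : ℕ}
    (h1 : ∀ Z ∈ A₁, ∃ Z' ∈ A₂, Z'.1 = T Z.1) (h2 : ∀ Z' ∈ A₂, ∃ Z ∈ A₁, Z'.1 = T Z.1)
    (h3 : ∀ Z ∈ A₁, ∀ W ∈ A₁, (T Z.1 ⊆ T W.1 ↔ Z.1 ⊆ W.1))
    (h4 : ∀ Z ∈ A₁, ∀ Z' ∈ A₂, Z'.1 = T Z.1 → (Z ∈ B₁ ↔ Z' ∈ B₂))
    (h : GoodCap (fg ℓ₂) A₂ B₂ n) : GoodCap (fg ℓ₁) A₁ B₁ n := by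
  choose φ hφ hφT using h1
  have hinj : ∀ Z (hZ : Z ∈ A₁) W (hW : W ∈ A₁), T Z.1 = T W.1 → Z = W := by
    intro Z hZ W hW h
    apply Subtype.ext
    apply Set.Subset.antisymm
    · exact (h3 Z hZ W hW).mp h.le
    · exact (h3 W hW Z hZ).mp h.ge
  refine good_cap (fun Z : A₁ => (⟨φ Z.1 Z.2, hφ Z.1 Z.2⟩ : A₂)) ⟨?_, ?_⟩ ?_ ?_ h
  · intro Z W hZW
    have hZW' : φ Z.1 Z.2 = φ W.1 W.2 := congrArg Subtype.val hZW
    apply Subtype.ext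
    refine hinj _ Z.2 _ W.2 ?_
    rw [← hφT _ Z.2, ← hφT _ W.2, hZW']
  · rintro ⟨Z', hZ'⟩
    obtain ⟨Z, hZ, hZT⟩ := h2 Z' hZ'
    refine ⟨⟨Z, hZ⟩, ?_⟩
    apply Subtype.ext
    apply Subtype.ext
    change (φ Z hZ).1 = Z'.1
    rw [hφT, hZT]
  · intro Z W
    change (fg ℓ₁).Adj Z.1 W.1 ↔ (fg ℓ₂).Adj (φ Z.1 Z.2) (φ W.1 W.2)
    rw [fg_adj, fg_adj, hφT, hφT, h3 Z.1 Z.2 W.1 W.2, h3 W.1 W.2 Z.1 Z.2]
    constructor
    · rintro ⟨h1, h2⟩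
      refine ⟨fun h => h1 ?_, h2⟩
      rw [hinj _ Z.2 _ W.2 h]
    · rintro ⟨h1, h2⟩
      exact ⟨fun h => h1 (congrArg _ h), h2⟩
  · intro Z
    exact h4 Z.1 Z.2 _ (hφ Z.1 Z.2) (hφT Z.1 Z.2)

theorem good_faces' (T : Set E₁ → Set E₂) {n : ℕ}
    (h1 : ∀ Z : Fc ℓ₁, ∃ Z' : Fc ℓ₂, Z'.1 = T Z.1)
    (h2 : ∀ Z' : Fc ℓ₂, ∃ Z : Fc ℓ₁, Z'.1 = T Z.1)
    (h3 : ∀ Z W : Fc ℓ₁, (T Z.1 ⊆ T W.1 ↔ Z.1 ⊆ W.1))
    (h : Good (Fc ℓ₂) (fg ℓ₂) n) : Good (Fc ℓ₁) (fg ℓ₁) n := by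
  choose φ hφT using h1
  have hinj : ∀ Z W : Fc ℓ₁, T Z.1 = T W.1 → Z = W := by
    intro Z W h
    apply Subtype.ext
    apply Set.Subset.antisymm
    · exact (h3 Z W).mp h.le
    · exact (h3 W Z).mp h.ge
  refine good_bij φ ⟨?_, ?_⟩ ?_ h
  · intro Z W hZW
    apply hinj
    rw [← hφT, ← hφT, hZW]
  · intro Z'
    obtain ⟨Z, hZT⟩ := h2 Z'
    refine ⟨Z, ?_⟩
    apply Subtype.ext
    rw [hφT, hZT]
  · intro Z W
    rw [fg_adj, fg_adj, hφT, hφT, h3 Z W, h3 W Z]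
    constructor
    · rintro ⟨h1, h2⟩
      refine ⟨fun h => h1 ?_, h2⟩
      rw [hinj _ _ h]
    · rintro ⟨h1, h2⟩
      exact ⟨fun h => h1 (congrArg _ h), h2⟩

end transfer

section subfamily

variable {E : Type} [Finite E] {V : Type} [AddCommGroup V] [Module ℝ V] {ℓ : E → Dual ℝ V}

/-- A subfamily. -/
def sub (ℓ : E → Dual ℝ V) (S : Set E) : S → Dual ℝ V := fun i => ℓ i

theorem sub_Pos {S : Set E} {x : V} (h : Pos ℓ x) : Pos (sub ℓ S) x := fun i => h i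

theorem zs_sub (S : Set E) (x : V) : zs (sub ℓ S) x = Subtype.val ⁻¹' zs ℓ x := rfl

variable {S : Set E} (hS : ∀ x, Pos (sub ℓ S) x → Pos ℓ x)

include hS

theorem zs_sub_iff {x y : V} (hx : Pos ℓ x) (hy : Pos ℓ y) :
    zs (sub ℓ S) x ⊆ zs (sub ℓ S) y ↔ zs ℓ x ⊆ zs ℓ y := by
  constructor
  · intro h i hi
    obtain ⟨ε, h1, h2⟩ := exists_Pos (y := -y) (sub_Pos (S := S) hx) (by
      intro j hj
      have := h hj
      rw [mem_zs] at this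
      rw [map_neg, this, neg_zero])
    have h3 := hS _ h2 i
    rw [mem_zs] at hi
    rw [map_add, map_smul, map_neg, hi, zero_add, smul_eq_mul, mul_neg] at h3
    have h4 : ε * ℓ i y ≤ 0 := by linarith
    have h5 : 0 ≤ ℓ i y := hy i
    rw [mem_zs]
    by_contra h6
    have h7 : 0 < ℓ i y := lt_of_le_of_ne h5 (Ne.symm h6)
    have := mul_pos h1 h7
    linarith
  · intro h i hi
    exact h hi

theorem vis_sub_iff {x : V} (hx : Pos ℓ x) (q : V) :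
    (∃ i ∈ zs ℓ x, ℓ i q < 0) ↔ ∃ i ∈ zs (sub ℓ S) x, sub ℓ S i q < 0 := by
  constructor
  · contrapose!
    rintro h i hi
    obtain ⟨ε, h1, h2⟩ := exists_Pos (y := q) (sub_Pos (S := S) hx) (by
      intro j hj
      exact h j hj)
    have h3 := hS _ h2 i
    rw [mem_zs] at hi
    rw [map_add, map_smul, hi, zero_add, smul_eq_mul] at h3
    exact nonneg_of_mul_nonneg_right h3 h1
  · rintro ⟨i, h1, h2⟩
    exact ⟨i, h1, h2⟩

theorem inv_sub_iff {x : V} (hx : Pos ℓ x) (q : V) :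
    (∃ i ∈ zs ℓ x, 0 < ℓ i q) ↔ ∃ i ∈ zs (sub ℓ S) x, 0 < sub ℓ S i q := by
  have := vis_sub_iff hS hx (-q)
  simpa using this

theorem sub_nonempty {x p : V} (hp : ∀ i, 0 < ℓ i p) (hx : Pos ℓ x) (h : (zs ℓ x).Nonempty) :
    (zs (sub ℓ S) x).Nonempty := by
  by_contra hcon
  rw [Set.not_nonempty_iff_eq_empty] at hcon
  have h1 : zs (sub ℓ S) x ⊆ zs (sub ℓ S) p := by
    rw [hcon]
    exact Set.empty_subset _
  rw [zs_sub_iff hS hx fun i => (hp i).le] at h1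
  obtain ⟨i, hi⟩ := h
  have h2 := h1 hi
  rw [mem_zs] at h2
  exact absurd h2 (hp i).ne'

theorem sub_univ {x : V} (hx : Pos ℓ x) (h : zs (sub ℓ S) x = Set.univ) :
    zs ℓ x = Set.univ := by
  have h1 : zs (sub ℓ S) 0 ⊆ zs (sub ℓ S) x := by
    rw [h]
    exact Set.subset_univ _
  rw [zs_sub_iff hS (fun i => by rw [map_zero]) hx] at h1
  apply Set.eq_univ_of_univ_subset
  refine Set.Subset.trans ?_ h1
  intro i _
  rw [mem_zs, map_zero]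

theorem sub_exists (hℓ : Cone ℓ) (Z : Fc ℓ) : ∃ Z' : Fc (sub ℓ S), Z'.1 = Subtype.val ⁻¹' Z.1 ∧
    ∃ x, Pos ℓ x ∧ zs ℓ x = Z.1 := by
  obtain ⟨Z, ⟨x, hx, hxZ⟩, hne, huniv⟩ := Z
  obtain ⟨p, hp⟩ := hℓ.solid
  subst hxZ
  exact ⟨⟨zs (sub ℓ S) x, ⟨x, sub_Pos hx, rfl⟩, sub_nonempty hS hp hx hne,
    fun h => huniv (sub_univ hS hx h)⟩, rfl, x, hx, rfl⟩

theorem sub_lift (Z' : Fc (sub ℓ S)) : ∃ Z : Fc ℓ, Z'.1 = Subtype.val ⁻¹' Z.1 := by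
  obtain ⟨Z, ⟨x, hx, hxZ⟩, hne, huniv⟩ := Z'
  subst hxZ
  refine ⟨⟨zs ℓ x, ⟨x, hS x hx, rfl⟩, ?_, ?_⟩, rfl⟩
  · obtain ⟨i, hi⟩ := hne
    exact ⟨i, hi⟩
  · intro h
    apply huniv
    rw [zs_sub, h]
    rfl

theorem sub_le (Z W : Fc ℓ) : ((Subtype.val ⁻¹' Z.1 : Set S) ⊆ Subtype.val ⁻¹' W.1 ↔
    Z.1 ⊆ W.1) := by
  obtain ⟨Z, ⟨x, hx, hxZ⟩, _, _⟩ := Z
  obtain ⟨W, ⟨y, hy, hyW⟩, _, _⟩ := W
  subst hxZ hyW
  exact zs_sub_iff hS hx hy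

theorem good_sub (hℓ : Cone ℓ) {n : ℕ} (h : Good (Fc (sub ℓ S)) (fg (sub ℓ S)) n) :
    Good (Fc ℓ) (fg ℓ) n := by
  refine good_faces' (fun Z => Subtype.val ⁻¹' Z) ?_ ?_ ?_ h
  · intro Z
    obtain ⟨Z', h1, _⟩ := sub_exists hS hℓ Z
    exact ⟨Z', h1⟩
  · intro Z'
    exact sub_lift hS Z'
  · exact sub_le hS

theorem vis_face (q : V) (Z : Fc ℓ) (Z' : Fc (sub ℓ S)) (h : Z'.1 = Subtype.val ⁻¹' Z.1) :
    (∃ i ∈ Z.1, ℓ i q < 0) ↔ ∃ i ∈ Z'.1, sub ℓ S i q < 0 := by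
  obtain ⟨Z, ⟨x, hx, hxZ⟩, _, _⟩ := Z
  rw [h]
  subst hxZ
  exact vis_sub_iff hS hx q

theorem inv_face (q : V) (Z : Fc ℓ) (Z' : Fc (sub ℓ S)) (h : Z'.1 = Subtype.val ⁻¹' Z.1) :
    (∃ i ∈ Z.1, 0 < ℓ i q) ↔ ∃ i ∈ Z'.1, 0 < sub ℓ S i q := by
  obtain ⟨Z, ⟨x, hx, hxZ⟩, _, _⟩ := Z
  rw [h]
  subst hxZ
  exact inv_sub_iff hS hx q

theorem goodCap_sub (hℓ : Cone ℓ) (q : V) {n : ℕ}
    (h : GoodCap (fg (sub ℓ S)) {Z | ∃ i ∈ Z.1, sub ℓ S i q < 0}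
      {Z | ∃ i ∈ Z.1, 0 < sub ℓ S i q} n) :
    GoodCap (fg ℓ) {Z | ∃ i ∈ Z.1, ℓ i q < 0} {Z | ∃ i ∈ Z.1, 0 < ℓ i q} n := by
  refine good_faces (fun Z => Subtype.val ⁻¹' Z) ?_ ?_ ?_ ?_ h
  · intro Z hZ
    obtain ⟨Z', h1, _⟩ := sub_exists hS hℓ Z
    exact ⟨Z', (vis_face hS q Z Z' h1).mp hZ, h1⟩
  · intro Z' hZ'
    obtain ⟨Z, h1⟩ := sub_lift hS Z'
    exact ⟨Z, (vis_face hS q Z Z' h1).mpr hZ', h1⟩
  · intro Z _ W _
    exact sub_le hS Z W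
  · intro Z _ Z' _ h1
    exact inv_face hS q Z Z' h1

theorem sub_cone (hℓ : Cone ℓ) : Cone (sub ℓ S) := by
  refine ⟨?_, ?_⟩
  · intro x hx
    apply hℓ.pointed
    have h1 : Pos ℓ x := hS x fun i => (hx i).ge
    have h2 : Pos ℓ (-x) := hS (-x) fun i => by
      rw [map_neg, hx i, neg_zero]
    intro i
    have h3 := h1 i
    have h4 := h2 i
    rw [map_neg] at h4
    linarith
  · obtain ⟨p, hp⟩ := hℓ.solid
    exact ⟨p, fun i => hp i⟩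

end subfamily

section irredundant

variable {E : Type} [Finite E] {V : Type} [AddCommGroup V] [Module ℝ V] {ℓ : E → Dual ℝ V}

theorem exists_irr (hℓ : Cone ℓ) : ∃ S : Set E, (∀ x, Pos (sub ℓ S) x → Pos ℓ x) ∧
    Irr (sub ℓ S) := by
  obtain ⟨S, hS, hmin⟩ := (Set.toFinite {S : Set E | ∀ x, Pos (sub ℓ S) x → Pos ℓ x}).exists_minimal
    ⟨Set.univ, fun x hx i => hx ⟨i, trivial⟩⟩
  refine ⟨S, hS, ?_⟩
  rintro ⟨k, hk⟩
  obtain ⟨p, hp⟩ := hℓ.solid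
  have h1 : ¬ ∀ x, Pos (sub ℓ (S \ {k})) x → Pos ℓ x := by
    intro h
    have h2 := hmin h Set.sdiff_subset hk
    exact h2.2 rfl
  push Not at h1
  obtain ⟨y, hy, hy2⟩ := h1
  have hy3 : ∀ i ∈ S, i ≠ k → 0 ≤ ℓ i y := fun i hi hik => hy ⟨i, hi, hik⟩
  have hky : ℓ k y < 0 := by
    by_contra hcon
    push Not at hcon
    apply hy2
    apply hS
    rintro ⟨i, hi⟩
    by_cases hik : i = k
    · subst hik
      exact hcon
    · exact hy3 i hi hik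
  set t : ℝ := - ℓ k y / ℓ k p with ht
  have ht0 : 0 < t := div_pos (neg_pos.mpr hky) (hp k)
  have hk0 : ℓ k (y + t • p) = 0 := by
    rw [map_add, map_smul, smul_eq_mul, ht, div_mul_cancel₀ _ (hp k).ne']
    ring
  have hpos : ∀ i ∈ S, i ≠ k → 0 < ℓ i (y + t • p) := by
    intro i hi hik
    rw [map_add, map_smul, smul_eq_mul]
    have h1 := hy3 i hi hik
    have h2 := mul_pos ht0 (hp i)
    linarith
  refine ⟨y + t • p, ?_, ?_⟩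
  · rintro ⟨i, hi⟩
    by_cases hik : i = k
    · subst hik
      exact hk0.ge
    · exact (hpos i hi hik).le
  · ext ⟨i, hi⟩
    rw [mem_zs, Set.mem_singleton_iff, Subtype.mk.injEq]
    constructor
    · intro h
      by_contra hik
      exact (hpos i hi hik).ne' h
    · rintro rfl
      exact hk0

end irredundant

end

end Pool.Agent.Poly
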