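import Pool.Agent.Helper30_Poly.Cone

/-!
# Facets of cones and the base of the induction
-/

namespace Pool.Agent.Poly

open Pool.Agent.Davis Pool.Agent.Helper30L2
open Module

set_option linter.unusedSectionVars false

noncomputable section

variable {E : Type} [Finite E] {V : Type} [AddCommGroup V] [Module ℝ V] {ℓ : E → Dual ℝ V}
  {k : E}

/-- The functionals different from `k`, restricted to the kernel of `k`. -/
def fac (ℓ : E → Dual ℝ V) (k : E) : {i // i ≠ k} → Dual ℝ (LinearMap.ker (ℓ k)) :=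
  fun i => (ℓ i).comp (LinearMap.ker (ℓ k)).subtype

theorem fac_apply (i : {i // i ≠ k}) (x : LinearMap.ker (ℓ k)) : fac ℓ k i x = ℓ i x := rfl

theorem zs_fac (x : LinearMap.ker (ℓ k)) : zs (fac ℓ k) x = Subtype.val ⁻¹' zs ℓ (x : V) := rfl

theorem Pos_fac (x : LinearMap.ker (ℓ k)) : Pos (fac ℓ k) x ↔ Pos ℓ (x : V) := by
  constructor
  · intro h i
    by_cases hi : i = k
    · subst hi
      exact (LinearMap.mem_ker.mp x.2).ge
    · exact h ⟨i, hi⟩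
  · intro h i
    exact h i

theorem fac_cone (hℓ : Cone ℓ) (hk : ∃ x, Pos ℓ x ∧ zs ℓ x = {k}) : Cone (fac ℓ k) := by
  refine ⟨?_, ?_⟩
  · intro x hx
    apply Subtype.ext
    apply hℓ.pointed
    intro i
    by_cases hi : i = k
    · subst hi
      exact LinearMap.mem_ker.mp x.2
    · exact hx ⟨i, hi⟩
  · obtain ⟨x, hx, hz⟩ := hk
    have hkx : ℓ k x = 0 := by
      have : k ∈ zs ℓ x := by rw [hz]; rfl
      exact this
    refine ⟨⟨x, hkx⟩, ?_⟩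
    rintro ⟨i, hi⟩
    refine lt_of_le_of_ne (hx i) ?_
    intro h
    have h2 : i ∈ zs ℓ x := h.symm
    rw [hz] at h2
    exact hi h2

theorem fac_face (Z : Fc ℓ) (hk : k ∈ Z.1) (hne : Z.1 ≠ {k}) :
    (∃ x, Pos (fac ℓ k) x ∧ zs (fac ℓ k) x = Subtype.val ⁻¹' Z.1) ∧
      (Subtype.val ⁻¹' Z.1 : Set {i // i ≠ k}).Nonempty ∧
      (Subtype.val ⁻¹' Z.1 : Set {i // i ≠ k}) ≠ Set.univ := by
  obtain ⟨Z, ⟨x, hx, hxZ⟩, hZ, huniv⟩ := Z
  subst hxZ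
  have hkx : ℓ k x = 0 := hk
  refine ⟨⟨⟨x, hkx⟩, (Pos_fac _).mpr hx, rfl⟩, ?_, ?_⟩
  · by_contra hcon
    apply hne
    ext i
    constructor
    · intro hi
      by_contra hik
      exact hcon ⟨⟨i, hik⟩, hi⟩
    · rintro rfl
      exact hk
  · intro h
    apply huniv
    apply Set.eq_univ_of_forall
    intro i
    by_cases hi : i = k
    · subst hi
      exact hk
    · have h2 : (⟨i, hi⟩ : {i // i ≠ k}) ∈ (Set.univ : Set {i // i ≠ k}) := trivial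
      rw [← h] at h2
      exact h2

theorem fac_lift (Z' : Fc (fac ℓ k)) : ∃ Z : Fc ℓ, k ∈ Z.1 ∧ Z.1 ≠ {k} ∧
    Z'.1 = Subtype.val ⁻¹' Z.1 := by
  obtain ⟨Z', ⟨x, hx, hxZ⟩, hZ, huniv⟩ := Z'
  subst hxZ
  refine ⟨⟨zs ℓ (x : V), ⟨x, (Pos_fac x).mp hx, rfl⟩, ⟨k, LinearMap.mem_ker.mp x.2⟩, ?_⟩,
    LinearMap.mem_ker.mp x.2, ?_, rfl⟩
  · intro h
    apply huniv
    rw [zs_fac, h]
    rfl
  · intro h
    obtain ⟨i, hi⟩ := hZ
    rw [zs_fac] at hi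
    have h2 : (i : E) ∈ zs ℓ (x : V) := hi
    change zs ℓ (x : V) = {k} at h
    rw [h] at h2
    exact i.2 h2

theorem fac_le {Z W : Set E} (hW : k ∈ W) :
    ((Subtype.val ⁻¹' Z : Set {i // i ≠ k}) ⊆ Subtype.val ⁻¹' W ↔ Z ⊆ W) := by
  constructor
  · intro h i hi
    by_cases hik : i = k
    · subst hik
      exact hW
    · exact h (show (⟨i, hik⟩ : {i // i ≠ k}) ∈ Subtype.val ⁻¹' Z from hi)
  · intro h i hi
    exact h hi

theorem goodCap_fac (q : V) (hq : ℓ k q = 0) {n : ℕ}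
    (h : GoodCap (fg (fac ℓ k)) {Z | ∃ i ∈ Z.1, fac ℓ k i ⟨q, hq⟩ < 0}
      {Z | ∃ i ∈ Z.1, 0 < fac ℓ k i ⟨q, hq⟩} n) :
    GoodCap (fg ℓ) {Z | k ∈ Z.1 ∧ ∃ i ∈ Z.1, ℓ i q < 0} {Z | ∃ i ∈ Z.1, 0 < ℓ i q} n := by
  refine good_faces (fun Z => Subtype.val ⁻¹' Z) ?_ ?_ ?_ ?_ h
  · rintro Z ⟨hk, i, hi, hiq⟩
    have hik : i ≠ k := by
      rintro rfl
      rw [hq] at hiq
      exact lt_irrefl _ hiq
    have hne : Z.1 ≠ {k} := by
      intro h2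
      rw [h2] at hi
      exact hik hi
    exact ⟨⟨_, fac_face Z hk hne⟩, ⟨⟨i, hik⟩, hi, hiq⟩, rfl⟩
  · rintro Z' ⟨i, hi, hiq⟩
    obtain ⟨Z, h1, _, h3⟩ := fac_lift Z'
    rw [h3] at hi
    exact ⟨Z, ⟨h1, i, hi, hiq⟩, h3⟩
  · intro Z _ W hW
    exact fac_le hW.1
  · intro Z _ Z' _ h1
    constructor
    · rintro ⟨i, hi, hiq⟩
      have hik : i ≠ k := by
        rintro rfl
        rw [hq] at hiq
        exact lt_irrefl _ hiq
      refine ⟨⟨i, hik⟩, ?_, hiq⟩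
      rw [h1]
      exact hi
    · rintro ⟨i, hi, hiq⟩
      rw [h1] at hi
      exact ⟨i, hi, hiq⟩

theorem join_inl {V₁ V₂ : Type} {Γ₁ : SimpleGraph V₁} {Γ₂ : SimpleGraph V₂} (x y : V₁) :
    (join Γ₁ Γ₂).Adj (Sum.inl x) (Sum.inl y) ↔ Γ₁.Adj x y := by
  simp [join]

theorem join_inr {V₁ V₂ : Type} {Γ₁ : SimpleGraph V₁} {Γ₂ : SimpleGraph V₂} (x y : V₂) :
    (join Γ₁ Γ₂).Adj (Sum.inr x) (Sum.inr y) ↔ Γ₂.Adj x y := by
  simp [join]

theorem join_mix {V₁ V₂ : Type} {Γ₁ : SimpleGraph V₁} {Γ₂ : SimpleGraph V₂} (x : V₁) (y : V₂) :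
    (join Γ₁ Γ₂).Adj (Sum.inl x) (Sum.inr y) := by
  simp [join]

theorem singleton_face (hk : ∃ x, Pos ℓ x ∧ zs ℓ x = {k}) (hE : ∃ i, i ≠ k) :
    ∃ F : Fc ℓ, F.1 = {k} := by
  refine ⟨⟨{k}, hk, Set.singleton_nonempty k, ?_⟩, rfl⟩
  intro h
  obtain ⟨i, hi⟩ := hE
  have h2 : i ∈ (Set.univ : Set E) := trivial
  rw [← h] at h2
  exact hi h2

theorem goodCap_base (hk : ∃ x, Pos ℓ x ∧ zs ℓ x = {k}) (hE : ∃ i, i ≠ k) {n : ℕ}
    {B : Set (Fc ℓ)} (hB : ∀ Z : Fc ℓ, k ∈ Z.1 → (Z ∈ B ↔ Z.1 ≠ {k}))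
    (h : Good (Fc (fac ℓ k)) (fg (fac ℓ k)) n) :
    GoodCap (fg ℓ) {Z | k ∈ Z.1} B (n + 1) := by
  classical
  have h1 := good_join good_points h
  rw [add_comm 1 n] at h1
  let g : ({Z : Fc ℓ | k ∈ Z.1} : Set (Fc ℓ)) → Bool ⊕ Fc (fac ℓ k) := fun Z =>
    if hZ : Z.1.1 = {k} then Sum.inl false else Sum.inr ⟨_, fac_face Z.1 Z.2 hZ⟩
  have g1 : ∀ Z : ({Z : Fc ℓ | k ∈ Z.1} : Set (Fc ℓ)), Z.1.1 = {k} → g Z = Sum.inl false :=
    fun Z hZ => dif_pos hZ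
  have g2 : ∀ (Z : ({Z : Fc ℓ | k ∈ Z.1} : Set (Fc ℓ))) (hZ : Z.1.1 ≠ {k}),
      g Z = Sum.inr ⟨_, fac_face Z.1 Z.2 hZ⟩ := fun Z hZ => dif_neg hZ
  have hmem : ∀ Z : ({Z : Fc ℓ | k ∈ Z.1} : Set (Fc ℓ)), k ∈ Z.1.1 := fun Z => Z.2
  let φ : Option ({Z : Fc ℓ | k ∈ Z.1} : Set (Fc ℓ)) → Bool ⊕ Fc (fac ℓ k) := fun o =>
    match o with
    | none => Sum.inl true
    | some Z => g Z
  have φ0 : φ none = Sum.inl true := rfl
  have φ1 : ∀ Z, φ (some Z) = g Z := fun _ => rfl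
  refine good_bij φ ⟨?_, ?_⟩ ?_ h1
  · rintro (_ | Z) (_ | W) hZW
    · rfl
    · exfalso
      rw [φ0, φ1] at hZW
      by_cases hW : W.1.1 = {k}
      · rw [g1 W hW] at hZW; simp at hZW
      · rw [g2 W hW] at hZW; simp at hZW
    · exfalso
      rw [φ0, φ1] at hZW
      by_cases hZ : Z.1.1 = {k}
      · rw [g1 Z hZ] at hZW; simp at hZW
      · rw [g2 Z hZ] at hZW; simp at hZW
    · rw [φ1, φ1] at hZW
      congr 1
      apply Subtype.ext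
      apply Subtype.ext
      by_cases hZ : Z.1.1 = {k}
      · by_cases hW : W.1.1 = {k}
        · rw [hZ, hW]
        · rw [g1 Z hZ, g2 W hW] at hZW
          simp at hZW
      · by_cases hW : W.1.1 = {k}
        · rw [g2 Z hZ, g1 W hW] at hZW
          simp at hZW
        · rw [g2 Z hZ, g2 W hW] at hZW
          have h3 := congrArg Subtype.val (Sum.inr_injective hZW)
          apply Set.Subset.antisymm
          · exact (fac_le (hmem W)).mp h3.le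
          · exact (fac_le (hmem Z)).mp h3.ge
  · rintro ((_ | _) | Z')
    · obtain ⟨F, hF⟩ := singleton_face hk hE
      have hkF : k ∈ F.1 := by rw [hF]; rfl
      exact ⟨some ⟨F, hkF⟩, g1 ⟨F, hkF⟩ hF⟩
    · exact ⟨none, rfl⟩
    · obtain ⟨Z, h1, h2, h3⟩ := fac_lift Z'
      refine ⟨some ⟨Z, h1⟩, ?_⟩
      rw [φ1, g2 ⟨Z, h1⟩ h2]
      congr 1
      exact Subtype.ext h3.symm
  · have key : ∀ Z W : ({Z : Fc ℓ | k ∈ Z.1} : Set (Fc ℓ)), W.1.1 ≠ {k} →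
        ((fg ℓ).Adj Z.1 W.1 ↔ (join (⊥ : SimpleGraph Bool) (fg (fac ℓ k))).Adj (g Z) (g W)) := by
      intro Z W hW
      rw [g2 W hW, fg_adj]
      by_cases hZ : Z.1.1 = {k}
      · rw [g1 Z hZ]
        simp only [join_mix, iff_true]
        refine ⟨?_, Or.inl ?_⟩
        · rw [hZ]; exact Ne.symm hW
        · rw [hZ, Set.singleton_subset_iff]
          exact W.2
      · rw [g2 Z hZ, join_inr, fg_adj]
        change _ ↔ (Subtype.val ⁻¹' Z.1.1 : Set {i // i ≠ k}) ≠ Subtype.val ⁻¹' W.1.1 ∧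
          ((Subtype.val ⁻¹' Z.1.1 : Set {i // i ≠ k}) ⊆ Subtype.val ⁻¹' W.1.1 ∨
            (Subtype.val ⁻¹' W.1.1 : Set {i // i ≠ k}) ⊆ Subtype.val ⁻¹' Z.1.1)
        rw [fac_le (hmem W), fac_le (hmem Z)]
        constructor
        · rintro ⟨h1, h2⟩
          refine ⟨fun h3 => h1 ?_, h2⟩
          apply Set.Subset.antisymm
          · exact (fac_le (hmem W)).mp h3.le
          · exact (fac_le (hmem Z)).mp h3.ge
        · rintro ⟨h1, h2⟩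
          exact ⟨fun h3 => h1 (by rw [h3]), h2⟩
    have key2 : ∀ W : ({Z : Fc ℓ | k ∈ Z.1} : Set (Fc ℓ)), (capOff (fg ℓ) {Z | k ∈ Z.1} B).Adj
        none (some W) ↔ (join (⊥ : SimpleGraph Bool) (fg (fac ℓ k))).Adj (Sum.inl true) (g W) := by
      intro W
      rw [capOff_none, hB _ (hmem W)]
      by_cases hW : W.1.1 = {k}
      · rw [g1 W hW, join_inl]
        simp [hW]
      · rw [g2 W hW]
        simp only [join_mix, iff_true]
        exact hW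
    rintro (_ | Z) (_ | W)
    · simp
    · rw [φ0, φ1]
      exact key2 W
    · rw [φ0, φ1, SimpleGraph.adj_comm, key2 Z, SimpleGraph.adj_comm]
    · rw [φ1, φ1, capOff_some]
      by_cases hW : W.1.1 = {k}
      · by_cases hZ : Z.1.1 = {k}
        · rw [g1 Z hZ, g1 W hW, join_inl, fg_adj]
          simp [hZ, hW]
        · rw [SimpleGraph.adj_comm, key W Z hZ, SimpleGraph.adj_comm]
      · exact key Z W hW

theorem good_of_cap (hk : ∃ x, Pos ℓ x ∧ zs ℓ x = {k}) (hE : ∃ i, i ≠ k) {n : ℕ}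
    (h : GoodCap (fg ℓ) {Z | ∃ i ∈ Z.1, i ≠ k} {Z | k ∈ Z.1} n) : Good (Fc ℓ) (fg ℓ) n := by
  classical
  obtain ⟨F, hF⟩ := singleton_face hk hE
  have hsing : ∀ Z : Fc ℓ, ¬ (∃ i ∈ Z.1, i ≠ k) → Z.1 = {k} := by
    intro Z hZ
    push Not at hZ
    obtain ⟨i, hi⟩ := Z.2.2.1
    have := hZ i hi
    subst this
    exact Set.Subset.antisymm hZ (Set.singleton_subset_iff.mpr hi)
  let φ : Fc ℓ → Option ({Z : Fc ℓ | ∃ i ∈ Z.1, i ≠ k} : Set (Fc ℓ)) := fun Z =>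
    if hZ : ∃ i ∈ Z.1, i ≠ k then some ⟨Z, hZ⟩ else none
  have φ1 : ∀ (Z : Fc ℓ) (hZ : ∃ i ∈ Z.1, i ≠ k), φ Z = some ⟨Z, hZ⟩ := fun Z hZ => dif_pos hZ
  have φ2 : ∀ Z : Fc ℓ, ¬ (∃ i ∈ Z.1, i ≠ k) → φ Z = none := fun Z hZ => dif_neg hZ
  refine good_bij φ ⟨?_, ?_⟩ ?_ h
  · intro Z W hZW
    by_cases hZ : ∃ i ∈ Z.1, i ≠ k
    · by_cases hW : ∃ i ∈ W.1, i ≠ k
      · rw [φ1 Z hZ, φ1 W hW] at hZW
        simpa using hZW
      · rw [φ1 Z hZ, φ2 W hW] at hZW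
        simp at hZW
    · by_cases hW : ∃ i ∈ W.1, i ≠ k
      · rw [φ2 Z hZ, φ1 W hW] at hZW
        simp at hZW
      · apply Subtype.ext
        rw [hsing Z hZ, hsing W hW]
  · rintro (_ | ⟨Z, hZ⟩)
    · refine ⟨F, φ2 F ?_⟩
      rintro ⟨i, hi, hik⟩
      rw [hF] at hi
      exact hik hi
    · exact ⟨Z, φ1 Z hZ⟩
  · have key : ∀ Z W : Fc ℓ, ¬ (∃ i ∈ Z.1, i ≠ k) → ((fg ℓ).Adj Z W ↔
        (capOff (fg ℓ) {Z | ∃ i ∈ Z.1, i ≠ k} {Z | k ∈ Z.1}).Adj (φ Z) (φ W)) := by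
      intro Z W hZ
      rw [φ2 Z hZ, fg_adj, hsing Z hZ]
      by_cases hW : ∃ i ∈ W.1, i ≠ k
      · rw [φ1 W hW, capOff_none]
        change _ ↔ k ∈ W.1
        constructor
        · rintro ⟨_, h1 | h1⟩
          · exact h1 rfl
          · obtain ⟨i, hi, hik⟩ := hW
            exact absurd (h1 hi) hik
        · intro h1
          refine ⟨?_, Or.inl (Set.singleton_subset_iff.mpr h1)⟩
          intro h2
          obtain ⟨i, hi, hik⟩ := hW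
          rw [← h2] at hi
          exact hik hi
      · rw [φ2 W hW, hsing W hW]
        simp
    intro Z W
    by_cases hZ : ∃ i ∈ Z.1, i ≠ k
    · by_cases hW : ∃ i ∈ W.1, i ≠ k
      · rw [φ1 Z hZ, φ1 W hW, capOff_some]
      · rw [SimpleGraph.adj_comm, key W Z hW, SimpleGraph.adj_comm]
    · exact key Z W hZ

end

end Pool.Agent.Poly
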