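import Pool.Agent.Helper30_Poly.Facet

/-!
# The projection of a cone along a line
-/

namespace Pool.Agent.Poly

open Pool.Agent.Davis Pool.Agent.Helper30L2
open Module

set_option linter.unusedSectionVars false

noncomputable section

variable {E : Type} [Finite E] {V : Type} [AddCommGroup V] [Module ℝ V] {ℓ : E → Dual ℝ V}
  {k : E} {q : V}

/-- The indices of the functionals that define the projected cone. -/
abbrev QI (ℓ : E → Dual ℝ V) (q : V) : Type := ({i // ℓ i q < 0} × {j // 0 < ℓ j q}) ⊕ Unit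

/-- The combination of two functionals that vanishes at `q`. -/
def mix (ℓ : E → Dual ℝ V) (q : V) (i j : E) : Dual ℝ V := ℓ j q • ℓ i - ℓ i q • ℓ j

theorem mix_apply (i j : E) (x : V) : mix ℓ q i j x = ℓ j q * ℓ i x - ℓ i q * ℓ j x := rfl

theorem mix_self (i j : E) : mix ℓ q i j q = 0 := by
  rw [mix_apply]
  ring

/-- The functionals on the quotient. -/
def quo (ℓ : E → Dual ℝ V) (k : E) (q : V) (hq : ℓ k q = 0) :
    QI ℓ q → Dual ℝ (V ⧸ Submodule.span ℝ {q})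
  | Sum.inl (i, j) => (Submodule.span ℝ {q}).liftQ (mix ℓ q i j) (by
      rw [Submodule.span_singleton_le_iff_mem, LinearMap.mem_ker]
      exact mix_self _ _)
  | Sum.inr () => (Submodule.span ℝ {q}).liftQ (ℓ k) (by
      rw [Submodule.span_singleton_le_iff_mem, LinearMap.mem_ker]
      exact hq)

/-- The projection. -/
abbrev mk (q : V) (x : V) : V ⧸ Submodule.span ℝ {q} := Submodule.Quotient.mk x

variable (hq : ℓ k q = 0)

theorem quo_inl (i : {i // ℓ i q < 0}) (j : {j // 0 < ℓ j q}) (x : V) :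
    quo ℓ k q hq (Sum.inl (i, j)) (mk q x) = ℓ j q * ℓ i x - ℓ i q * ℓ j x := rfl

theorem quo_inr (x : V) : quo ℓ k q hq (Sum.inr ()) (mk q x) = ℓ k x := rfl

/-- The zero sets of the projected family. -/
def TQ (ℓ : E → Dual ℝ V) (k : E) (q : V) (Z : Set E) : Set (QI ℓ q) :=
  {e | match e with
    | Sum.inl (i, j) => (i : E) ∈ Z ∧ (j : E) ∈ Z
    | Sum.inr () => k ∈ Z}

theorem mem_TQ_inl {Z : Set E} {i : {i // ℓ i q < 0}} {j : {j // 0 < ℓ j q}} :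
    (Sum.inl (i, j) : QI ℓ q) ∈ TQ ℓ k q Z ↔ (i : E) ∈ Z ∧ (j : E) ∈ Z := Iff.rfl

theorem mem_TQ_inr {Z : Set E} : (Sum.inr () : QI ℓ q) ∈ TQ ℓ k q Z ↔ k ∈ Z := Iff.rfl

theorem quo_Pos {x : V} (hx : Pos ℓ x) : Pos (quo ℓ k q hq) (mk q x) := by
  rintro (⟨i, j⟩ | ⟨⟩)
  · rw [quo_inl]
    have h1 := mul_nonneg j.2.le (hx i)
    have h2 := mul_nonneg (neg_nonneg.mpr i.2.le) (hx j)
    linarith
  · rw [quo_inr]
    exact hx k

theorem zs_quo {x : V} (hx : Pos ℓ x) : zs (quo ℓ k q hq) (mk q x) = TQ ℓ k q (zs ℓ x) := by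
  ext e
  rcases e with ⟨i, j⟩ | ⟨⟩
  · rw [mem_zs, quo_inl, mem_TQ_inl, mem_zs, mem_zs]
    constructor
    · intro h
      have h1 := mul_nonneg j.2.le (hx i)
      have h2 := mul_nonneg (neg_nonneg.mpr i.2.le) (hx j)
      have h3 : ℓ j q * ℓ i x = 0 := by linarith
      have h4 : ℓ i q * ℓ j x = 0 := by linarith
      exact ⟨(mul_eq_zero.mp h3).resolve_left j.2.ne', (mul_eq_zero.mp h4).resolve_left i.2.ne⟩
    · rintro ⟨h1, h2⟩
      rw [h1, h2]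
      ring
  · rw [mem_zs, quo_inr, mem_TQ_inr, mem_zs]

theorem mk_add_smul (x : V) (t : ℝ) : mk q (x + t • q) = mk q x := by
  rw [Submodule.Quotient.eq]
  rw [add_sub_cancel_left]
  exact Submodule.smul_mem _ _ (Submodule.mem_span_singleton_self q)

variable (hgen : ∀ i, i ≠ k → ℓ i q ≠ 0)

include hgen

theorem quo_lift {x : V} (hx : Pos (quo ℓ k q hq) (mk q x)) {i : {i // ℓ i q < 0}}
    {j : {j // 0 < ℓ j q}} (hij : (Sum.inl (i, j) : QI ℓ q) ∈ zs (quo ℓ k q hq) (mk q x)) :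
    ∃ x', mk q x' = mk q x ∧ Pos ℓ x' := by
  set t : ℝ := - ℓ i x / ℓ i q with ht
  set x' := x + t • q with hx'
  have hmk : mk q x' = mk q x := mk_add_smul x t
  refine ⟨x', hmk, ?_⟩
  rw [← hmk] at hx hij
  have hi : ℓ i x' = 0 := by
    rw [hx', map_add, map_smul, smul_eq_mul, ht, div_mul_cancel₀ _ i.2.ne]
    ring
  have hj : ℓ j x' = 0 := by
    rw [mem_zs, quo_inl, hi, mul_zero, zero_sub, neg_eq_zero] at hij
    exact (mul_eq_zero.mp hij).resolve_left i.2.ne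
  intro a
  by_cases hak : a = k
  · subst hak
    exact hx (Sum.inr ())
  · rcases lt_or_gt_of_ne (hgen a hak) with ha | ha
    · have h1 := hx (Sum.inl (⟨a, ha⟩, j))
      rw [quo_inl, hj, mul_zero, sub_zero] at h1
      exact nonneg_of_mul_nonneg_right h1 j.2
    · have h1 := hx (Sum.inl (i, ⟨a, ha⟩))
      rw [quo_inl, hi, mul_zero, zero_sub, ← neg_mul] at h1
      exact nonneg_of_mul_nonneg_right h1 (neg_pos.mpr i.2)

theorem quo_cone (hℓ : Cone ℓ) (i : {i // ℓ i q < 0}) (j : {j // 0 < ℓ j q}) :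
    Cone (quo ℓ k q hq) := by
  refine ⟨?_, ?_⟩
  · intro y hy
    obtain ⟨x, rfl⟩ := Submodule.Quotient.mk_surjective _ y
    set t : ℝ := - ℓ i x / ℓ i q with ht
    set x' := x + t • q with hx'
    have hmk : mk q x' = mk q x := mk_add_smul x t
    have hi : ℓ i x' = 0 := by
      rw [hx', map_add, map_smul, smul_eq_mul, ht, div_mul_cancel₀ _ i.2.ne]
      ring
    have hj : ∀ b : {j // 0 < ℓ j q}, ℓ b x' = 0 := by
      intro b
      have h1 := hy (Sum.inl (i, b))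
      change quo ℓ k q hq (Sum.inl (i, b)) (mk q x) = 0 at h1
      rw [← hmk, quo_inl, hi, mul_zero, zero_sub, neg_eq_zero] at h1
      exact (mul_eq_zero.mp h1).resolve_left i.2.ne
    have hx0 : x' = 0 := by
      apply hℓ.pointed
      intro a
      by_cases hak : a = k
      · subst hak
        have h1 := hy (Sum.inr ())
        change quo ℓ a q hq (Sum.inr ()) (mk q x) = 0 at h1
        rw [← hmk, quo_inr] at h1
        exact h1
      · rcases lt_or_gt_of_ne (hgen a hak) with ha | ha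
        · have h1 := hy (Sum.inl (⟨a, ha⟩, j))
          change quo ℓ k q hq (Sum.inl (⟨a, ha⟩, j)) (mk q x) = 0 at h1
          rw [← hmk, quo_inl, hj, mul_zero, sub_zero] at h1
          exact (mul_eq_zero.mp h1).resolve_left j.2.ne'
        · exact hj ⟨a, ha⟩
    change mk q x = 0
    rw [← hmk, hx0]
    rfl
  · obtain ⟨p, hp⟩ := hℓ.solid
    refine ⟨mk q p, ?_⟩
    rintro (⟨i, j⟩ | ⟨⟩)
    · rw [quo_inl]
      have h1 := mul_pos j.2 (hp i)
      have h2 := mul_pos (neg_pos.mpr i.2) (hp j)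
      linarith
    · rw [quo_inr]
      exact hp k

theorem TQ_subset {Z W : Set E} {i : {i // ℓ i q < 0}} {j : {j // 0 < ℓ j q}}
    (hi : (i : E) ∈ Z) (hj : (j : E) ∈ Z) :
    TQ ℓ k q Z ⊆ TQ ℓ k q W ↔ Z ⊆ W := by
  constructor
  · intro h a ha
    by_cases hak : a = k
    · subst hak
      exact h (mem_TQ_inr.mpr ha)
    · rcases lt_or_gt_of_ne (hgen a hak) with h1 | h1
      · exact (mem_TQ_inl.mp (h (mem_TQ_inl.mpr (⟨ha, hj⟩ :
          ((⟨a, h1⟩ : {i // ℓ i q < 0}) : E) ∈ Z ∧ (j : E) ∈ Z)))).1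
      · exact (mem_TQ_inl.mp (h (mem_TQ_inl.mpr (⟨hi, ha⟩ :
          (i : E) ∈ Z ∧ ((⟨a, h1⟩ : {j // 0 < ℓ j q}) : E) ∈ Z)))).2
  · intro h e he
    rcases e with ⟨a, b⟩ | ⟨⟩
    · exact ⟨h he.1, h he.2⟩
    · exact h he

theorem TQ_univ {Z : Set E} (i : {i // ℓ i q < 0}) (j : {j // 0 < ℓ j q})
    (h : TQ ℓ k q Z = Set.univ) : Z = Set.univ := by
  have hi : ∀ a : {i // ℓ i q < 0}, (a : E) ∈ Z := by
    intro a
    have : (Sum.inl (a, j) : QI ℓ q) ∈ TQ ℓ k q Z := by rw [h]; trivial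
    exact this.1
  have hj : ∀ a : {j // 0 < ℓ j q}, (a : E) ∈ Z := by
    intro a
    have : (Sum.inl (i, a) : QI ℓ q) ∈ TQ ℓ k q Z := by rw [h]; trivial
    exact this.2
  apply Set.eq_univ_of_forall
  intro a
  by_cases hak : a = k
  · subst hak
    have : (Sum.inr () : QI ℓ q) ∈ TQ ℓ a q Z := by rw [h]; trivial
    exact this
  · rcases lt_or_gt_of_ne (hgen a hak) with h1 | h1
    · exact hi ⟨a, h1⟩
    · exact hj ⟨a, h1⟩

theorem goodCap_quo (hk : ∃ x, Pos ℓ x ∧ zs ℓ x = {k}) (i₀ : {i // ℓ i q < 0})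
    (j₀ : {j // 0 < ℓ j q}) {n : ℕ} (h : Good (Fc (quo ℓ k q hq)) (fg (quo ℓ k q hq)) n) :
    GoodCap (fg ℓ) {Z | (∃ i ∈ Z.1, ℓ i q < 0) ∧ ∃ i ∈ Z.1, 0 < ℓ i q} {Z | k ∈ Z.1} n := by
  classical
  have hface : ∀ Z : Fc ℓ, (∃ i ∈ Z.1, ℓ i q < 0) → (∃ i ∈ Z.1, 0 < ℓ i q) →
      (∃ y, Pos (quo ℓ k q hq) y ∧ zs (quo ℓ k q hq) y = TQ ℓ k q Z.1) ∧
        (TQ ℓ k q Z.1).Nonempty ∧ TQ ℓ k q Z.1 ≠ Set.univ := by
    rintro ⟨Z, ⟨x, hx, rfl⟩, _, huniv⟩ ⟨i, hi, hi2⟩ ⟨j, hj, hj2⟩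
    exact ⟨⟨mk q x, quo_Pos hq hx, zs_quo hq hx⟩, ⟨Sum.inl (⟨i, hi2⟩, ⟨j, hj2⟩), hi, hj⟩,
      fun h => huniv (TQ_univ hgen i₀ j₀ h)⟩
  have hnone : (∃ y, Pos (quo ℓ k q hq) y ∧ zs (quo ℓ k q hq) y = {Sum.inr ()}) ∧
      ({Sum.inr ()} : Set (QI ℓ q)).Nonempty ∧ ({Sum.inr ()} : Set (QI ℓ q)) ≠ Set.univ := by
    obtain ⟨x, hx, hxz⟩ := hk
    refine ⟨⟨mk q x, quo_Pos hq hx, ?_⟩, Set.singleton_nonempty _, ?_⟩
    · rw [zs_quo hq hx, hxz]
      ext e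
      rcases e with ⟨i, j⟩ | ⟨⟩
      · rw [mem_TQ_inl]
        simp only [Set.mem_singleton_iff, reduceCtorEq, iff_false]
        rintro ⟨h1, _⟩
        have h2 := i.2
        rw [h1, hq] at h2
        exact lt_irrefl _ h2
      · rw [mem_TQ_inr]
        simp
    · intro h1
      have h2 : (Sum.inl (i₀, j₀) : QI ℓ q) ∈ ({Sum.inr ()} : Set (QI ℓ q)) := by
        rw [h1]; trivial
      simp at h2
  set A : Set (Fc ℓ) := {Z | (∃ i ∈ Z.1, ℓ i q < 0) ∧ ∃ i ∈ Z.1, 0 < ℓ i q} with hA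
  let φ : Option A → Fc (quo ℓ k q hq) := fun o =>
    match o with
    | none => ⟨{Sum.inr ()}, hnone⟩
    | some Z => ⟨TQ ℓ k q Z.1.1, hface Z.1 Z.2.1 Z.2.2⟩
  have φ0 : (φ none).1 = {Sum.inr ()} := rfl
  have φ1 : ∀ Z : A, (φ (some Z)).1 = TQ ℓ k q Z.1.1 := fun _ => rfl
  have hsub : ∀ Z W : A, (TQ ℓ k q Z.1.1 ⊆ TQ ℓ k q W.1.1 ↔ Z.1.1 ⊆ W.1.1) := by
    intro Z W
    obtain ⟨⟨i, hi, hi2⟩, ⟨j, hj, hj2⟩⟩ := Z.2
    exact TQ_subset hgen (i := ⟨i, hi2⟩) (j := ⟨j, hj2⟩) hi hj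
  have hnot : ∀ Z : A, ¬ TQ ℓ k q Z.1.1 ⊆ {Sum.inr ()} := by
    intro Z h1
    obtain ⟨⟨i, hi, hi2⟩, ⟨j, hj, hj2⟩⟩ := Z.2
    have h2 : (Sum.inl (⟨i, hi2⟩, ⟨j, hj2⟩) : QI ℓ q) ∈ TQ ℓ k q Z.1.1 := ⟨hi, hj⟩
    have h3 := h1 h2
    simp at h3
  refine good_bij φ ⟨?_, ?_⟩ ?_ h
  · rintro (_ | Z) (_ | W) hZW
    · rfl
    · exact absurd (congrArg Subtype.val hZW).ge (hnot W)
    · exact absurd (congrArg Subtype.val hZW).le (hnot Z)
    · congr 1
      apply Subtype.ext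
      apply Subtype.ext
      apply Set.Subset.antisymm
      · exact (hsub Z W).mp (congrArg Subtype.val hZW).le
      · exact (hsub W Z).mp (congrArg Subtype.val hZW).ge
  · rintro ⟨Z', ⟨y, hy, rfl⟩, hne, huniv⟩
    obtain ⟨x, rfl⟩ := Submodule.Quotient.mk_surjective _ y
    change Pos (quo ℓ k q hq) (mk q x) at hy
    by_cases hij : ∃ (i : {i // ℓ i q < 0}) (j : {j // 0 < ℓ j q}),
        (Sum.inl (i, j) : QI ℓ q) ∈ zs (quo ℓ k q hq) (mk q x)
    · obtain ⟨i, j, hij⟩ := hij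
      obtain ⟨x', h1, h2⟩ := quo_lift hq hgen hy hij
      have h3 : zs (quo ℓ k q hq) (mk q x) = TQ ℓ k q (zs ℓ x') := by
        rw [← h1, zs_quo hq h2]
      rw [h3] at hij
      have hF : ((∃ x, Pos ℓ x ∧ zs ℓ x = zs ℓ x') ∧ (zs ℓ x').Nonempty ∧
          zs ℓ x' ≠ Set.univ) := by
        refine ⟨⟨x', h2, rfl⟩, ⟨i, hij.1⟩, ?_⟩
        intro h4
        apply huniv
        change zs (quo ℓ k q hq) (mk q x) = Set.univ
        rw [h3, h4]
        apply Set.eq_univ_of_forall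
        rintro (⟨a, b⟩ | ⟨⟩)
        · exact ⟨trivial, trivial⟩
        · trivial
      refine ⟨some ⟨⟨zs ℓ x', hF⟩, ⟨i, hij.1, i.2⟩, ⟨j, hij.2, j.2⟩⟩, ?_⟩
      apply Subtype.ext
      exact h3.symm
    · refine ⟨none, ?_⟩
      apply Subtype.ext
      rw [φ0]
      symm
      apply Set.Subset.antisymm
      · rintro (⟨i, j⟩ | ⟨⟩) he
        · exact absurd ⟨i, j, he⟩ hij
        · rfl
      · rw [Set.singleton_subset_iff]
        obtain ⟨e, he⟩ := hne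
        rcases e with ⟨i, j⟩ | ⟨⟩
        · exact absurd ⟨i, j, he⟩ hij
        · exact he
  · have key : ∀ W : A, (k ∈ W.1.1 ↔ (fg (quo ℓ k q hq)).Adj (φ none) (φ (some W))) := by
      intro W
      rw [fg_adj, φ0, φ1]
      constructor
      · intro hk
        refine ⟨fun h1 => hnot W h1.ge, Or.inl ?_⟩
        rw [Set.singleton_subset_iff]
        exact hk
      · rintro ⟨_, h1 | h1⟩
        · rw [Set.singleton_subset_iff] at h1
          exact h1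
        · exact absurd h1 (hnot W)
    rintro (_ | Z) (_ | W)
    · simp
    · rw [capOff_none]
      exact key W
    · rw [SimpleGraph.adj_comm, capOff_none, SimpleGraph.adj_comm]
      exact key Z
    · rw [capOff_some, fg_adj, fg_adj, φ1, φ1, hsub Z W, hsub W Z]
      constructor
      · rintro ⟨h1, h2⟩
        refine ⟨fun h3 => h1 ?_, h2⟩
        apply Set.Subset.antisymm
        · exact (hsub Z W).mp h3.le
        · exact (hsub W Z).mp h3.ge
      · rintro ⟨h1, h2⟩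
        exact ⟨fun h3 => h1 (by rw [h3]), h2⟩

end

end Pool.Agent.Poly
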