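import Pool.Agent.Helper30_L2.Class

/-!
# Adding a top cell to a capped ball: the combinatorial step
-/

namespace Pool.Agent.Poly

open Pool.Agent.Davis Pool.Agent.Helper30L2

set_option linter.unusedSectionVars false
set_option linter.style.haveILetI false

noncomputable section

/-- The capped part `A` of a graph is good. -/
def GoodCap {C : Type} (Γ : SimpleGraph C) (A B : Set C) (n : ℕ) : Prop :=
  Good (Option A) (capOff Γ A B) n

theorem good_bij {V₁ V₂ : Type} {Γ₁ : SimpleGraph V₁} {Γ₂ : SimpleGraph V₂} {n : ℕ}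
    (φ : V₁ → V₂) (hφ : Function.Bijective φ)
    (hadj : ∀ x y, Γ₁.Adj x y ↔ Γ₂.Adj (φ x) (φ y)) (h : Good V₂ Γ₂ n) : Good V₁ Γ₁ n := by
  let e : V₁ ≃ V₂ := Equiv.ofBijective φ hφ
  let e' : Γ₁ ≃g Γ₂ := ⟨e, fun {x y} => (hadj x y).symm⟩
  exact good_iso e'.symm h

/-- Transfer of a capped part along a bijection. -/
theorem good_cap {C₁ C₂ : Type} {Γ₁ : SimpleGraph C₁} {Γ₂ : SimpleGraph C₂} {A₁ B₁ : Set C₁}
    {A₂ B₂ : Set C₂} {n : ℕ} (φ : A₁ → A₂) (hφ : Function.Bijective φ)
    (hadj : ∀ x y : A₁, Γ₁.Adj x y ↔ Γ₂.Adj (φ x) (φ y))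
    (hB : ∀ x : A₁, (x : C₁) ∈ B₁ ↔ (φ x : C₂) ∈ B₂) (h : GoodCap Γ₂ A₂ B₂ n) :
    GoodCap Γ₁ A₁ B₁ n := by
  refine good_bij (Option.map φ) ⟨Option.map_injective hφ.1, ?_⟩ ?_ h
  · rintro (_ | y)
    · exact ⟨none, rfl⟩
    · obtain ⟨x, rfl⟩ := hφ.2 y
      exact ⟨some x, rfl⟩
  · rintro (_ | x) (_ | y)
    · simp
    · rw [capOff_none]
      change _ ↔ (capOff Γ₂ A₂ B₂).Adj none (some (φ y))
      rw [capOff_none]
      exact hB y
    · rw [SimpleGraph.adj_comm, capOff_none]
      change _ ↔ (capOff Γ₂ A₂ B₂).Adj (some (φ x)) none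
      rw [SimpleGraph.adj_comm, capOff_none]
      exact hB x
    · rw [capOff_some]
      change _ ↔ (capOff Γ₂ A₂ B₂).Adj (some (φ x)) (some (φ y))
      rw [capOff_some]
      exact hadj x y

/-- The vertices of the ambient graph of the step. -/
inductive Amb (C : Type) : Type
  | cell (x : C) : Amb C
  | cap : Amb C
  | old : Amb C
  | mid : Amb C
  | aux : Amb C

open Amb

theorem Amb.finite {C : Type} [Finite C] : Finite (Amb C) := by
  refine Finite.of_injective (β := Option (Option (Option (Option C)))) (fun z => match z with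
    | cell x => some (some (some (some x)))
    | cap => none
    | old => some none
    | mid => some (some none)
    | aux => some (some (some none))) ?_
  intro x y h
  cases x <;> cases y <;> simp_all

/-- The relation defining the ambient graph; if `e` holds the edge between `f` and the cap is
present. -/
def rel {C : Type} (Γ : SimpleGraph C) (u k v : C → Prop) (f : C) (e : Prop) : Amb C → Amb C → Prop
  | cell x, cell y => Γ.Adj x y
  | cap, cell x => v x ∨ (e ∧ x = f)
  | old, cell x => u x ∧ (k x ∨ v x)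
  | mid, cell x => x = f ∨ (k x ∧ u x ∧ v x)
  | aux, cell x => x = f ∨ (k x ∧ u x ∧ v x)
  | mid, cap => True
  | old, aux => True
  | _, _ => False

/-- The ambient graph. -/
def AG {C : Type} (Γ : SimpleGraph C) (u k v : C → Prop) (f : C) (e : Prop) :
    SimpleGraph (Amb C) := SimpleGraph.fromRel (rel Γ u k v f e)

section adj

variable {C : Type} {Γ : SimpleGraph C} {u k v : C → Prop} {f : C} {e : Prop}

theorem adj_cc (x y : C) : (AG Γ u k v f e).Adj (cell x) (cell y) ↔ Γ.Adj x y := by
  unfold AG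
  rw [SimpleGraph.fromRel_adj]
  constructor
  · rintro ⟨_, h | h⟩
    · exact h
    · exact h.symm
  · intro h
    refine ⟨?_, Or.inl h⟩
    intro h2
    cases h2
    exact Γ.irrefl h

theorem adj_cap (x : C) : (AG Γ u k v f e).Adj cap (cell x) ↔ v x ∨ (e ∧ x = f) := by
  unfold AG
  rw [SimpleGraph.fromRel_adj]
  simp [rel]

theorem adj_old (x : C) : (AG Γ u k v f e).Adj old (cell x) ↔ u x ∧ (k x ∨ v x) := by
  unfold AG
  rw [SimpleGraph.fromRel_adj]
  simp [rel]

theorem adj_mid (x : C) : (AG Γ u k v f e).Adj mid (cell x) ↔ x = f ∨ (k x ∧ u x ∧ v x) := by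
  unfold AG
  rw [SimpleGraph.fromRel_adj]
  simp [rel]

theorem adj_aux (x : C) : (AG Γ u k v f e).Adj aux (cell x) ↔ x = f ∨ (k x ∧ u x ∧ v x) := by
  unfold AG
  rw [SimpleGraph.fromRel_adj]
  simp [rel]

theorem adj_mid_cap : (AG Γ u k v f e).Adj mid cap := by
  unfold AG
  rw [SimpleGraph.fromRel_adj]
  simp [rel]

theorem adj_old_aux : (AG Γ u k v f e).Adj old aux := by
  unfold AG
  rw [SimpleGraph.fromRel_adj]
  simp [rel]

theorem adj_old_cap : ¬ (AG Γ u k v f e).Adj old cap := by
  unfold AG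
  rw [SimpleGraph.fromRel_adj]
  simp [rel]

theorem adj_aux_cap : ¬ (AG Γ u k v f e).Adj aux cap := by
  unfold AG
  rw [SimpleGraph.fromRel_adj]
  simp [rel]

end adj

/-- An embedding of the capped part into the ambient type. -/
def capEmb {C : Type} (A : Set C) (z : Amb C) (hz : ∀ x ∈ A, cell x ≠ z) :
    Option A ↪ Amb C where
  toFun := fun o => match o with
    | none => z
    | some x => cell x
  inj' := by
    rintro (_ | x) (_ | y) h
    · rfl
    · exact absurd h.symm (hz y y.2)
    · exact absurd h (hz x x.2)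
    · simp only [cell.injEq] at h
      rw [Subtype.ext h]

/-- A capped part inside the ambient graph. -/
theorem hs_cap {C : Type} [Finite C] {Γ : SimpleGraph C} {u k v : C → Prop} {f : C} {e : Prop}
    [Fintype (Amb C)] [DecidableEq (Amb C)] {A B : Set C} {n : ℕ} (z : Amb C)
    (hz : ∀ x ∈ A, cell x ≠ z)
    (hB : ∀ x ∈ A, ((AG Γ u k v f e).Adj z (cell x) ↔ x ∈ B)) (h : GoodCap Γ A B n)
    {S : Finset (Amb C)} (hS : ∀ w, w ∈ S ↔ w = z ∨ ∃ x ∈ A, cell x = w) :
    HS (AG Γ u k v f e) n S := by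
  refine good_embed (capEmb A z hz) ?_ h ?_
  · rintro (_ | x) (_ | y)
    · simp
    · rw [capOff_none]
      exact (hB y y.2).symm
    · rw [SimpleGraph.adj_comm, capOff_none]
      change _ ↔ (AG Γ u k v f e).Adj (cell x) z
      rw [SimpleGraph.adj_comm]
      exact (hB x x.2).symm
    · rw [capOff_some]
      change _ ↔ (AG Γ u k v f e).Adj (cell x) (cell y)
      rw [adj_cc]
  · intro w
    rw [hS]
    constructor
    · rintro (rfl | ⟨x, hx, rfl⟩)
      · exact ⟨none, rfl⟩
      · exact ⟨some ⟨x, hx⟩, rfl⟩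
    · rintro ⟨(_ | x), rfl⟩
      · exact Or.inl rfl
      · exact Or.inr ⟨x, x.2, rfl⟩

/-- The step. -/
theorem step {C : Type} [Finite C] {Γ : SimpleGraph C} {n : ℕ} {u k v : C → Prop} {f : C}
    (hf : k f) (hfu : ¬ u f) (hfv : ¬ v f)
    (hfadj : ∀ x, Γ.Adj f x ↔ k x ∧ x ≠ f)
    (hfuv : ∀ x, k x → x ≠ f → u x ∨ v x)
    (hmono : ∀ x y, Γ.Adj x y → ((u x → u y) ∧ (k x → k y) ∧ (v x → v y)) ∨
      ((u y → u x) ∧ (k y → k x) ∧ (v y → v x)))
    (h1 : GoodCap Γ {x | u x} {x | k x ∨ v x} (n + 1))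
    (h2 : GoodCap Γ {x | k x ∧ u x} {x | v x} n)
    (h3 : GoodCap Γ {x | k x ∧ v x} {x | u x} n)
    (h4 : GoodCap Γ {x | u x ∧ v x} {x | k x} n) :
    GoodCap Γ {x | u x ∨ k x} {x | v x} (n + 1) := by
  classical
  haveI : Finite (Amb C) := Amb.finite
  letI : Fintype (Amb C) := Fintype.ofFinite _
  set S₁ : Finset (Amb C) := Finset.univ.filter fun w =>
    w = cap ∨ w = cell f ∨ ∃ x, (k x ∧ v x) ∧ cell x = w with hS₁
  set S₂ : Finset (Amb C) := Finset.univ.filter fun w =>
    w = cap ∨ w = cell f ∨ ∃ x, u x ∧ cell x = w with hS₂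
  have m₁ : ∀ w, w ∈ S₁ ↔ w = cap ∨ w = cell f ∨ ∃ x, (k x ∧ v x) ∧ cell x = w := by
    intro w; rw [hS₁, Finset.mem_filter]; simp
  have m₂ : ∀ w, w ∈ S₂ ↔ w = cap ∨ w = cell f ∨ ∃ x, u x ∧ cell x = w := by
    intro w; rw [hS₂, Finset.mem_filter]; simp
  have mc₁ : ∀ x, cell x ∈ S₁ ↔ x = f ∨ (k x ∧ v x) := by
    intro x; rw [m₁]; simp
  have mc₂ : ∀ x, cell x ∈ S₂ ↔ x = f ∨ u x := by
    intro x; rw [m₂]; simp
  -- the graph with the additional edge
  have hsplit : HS (AG Γ u k v f True) (n + 1) S₂ := by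
    apply HS_split (a := cell f) (b := cap) (c := old) (w := aux)
    · rw [mc₂]; exact Or.inl rfl
    · rw [m₂]; exact Or.inl rfl
    · rw [SimpleGraph.adj_comm, adj_cap]; exact Or.inr ⟨trivial, rfl⟩
    · rw [m₂]; simp
    · rw [m₂]; simp
    · intro w hw
      rw [m₂] at hw
      rcases hw with rfl | rfl | ⟨x, hx, rfl⟩
      · simp [adj_old_cap]
      · rw [adj_old]
        simp [hfu]
      · have hxf : x ≠ f := by rintro rfl; exact hfu hx
        rw [adj_old, adj_cc, adj_cap, hfadj]
        simp only [ne_eq, cell.injEq, hxf, not_false_eq_true, true_and, reduceCtorEq, and_true,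
          and_false, or_false]
        exact ⟨fun h => h.2, fun h => ⟨hx, h⟩⟩
    · intro w hw
      rw [m₂] at hw
      rcases hw with rfl | rfl | ⟨x, hx, rfl⟩
      · simp [adj_aux_cap]
      · rw [adj_aux]
        simp
      · have hxf : x ≠ f := by rintro rfl; exact hfu hx
        rw [adj_aux, adj_cc, adj_cap, hfadj]
        simp only [ne_eq, cell.injEq, hxf, not_false_eq_true, false_or, and_true, and_false,
          or_false]
        exact ⟨fun h => ⟨h.1, h.2.2⟩, fun h => ⟨h.1, hx, h.2⟩⟩
    · exact adj_old_aux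
    · intro w hw z hz e1 e2 e3 e4 e5 e6
      rw [m₂] at hw hz
      rcases hw with rfl | rfl | ⟨x, hx, rfl⟩
      · exact absurd rfl e3
      · exact absurd e1 (SimpleGraph.irrefl _)
      · rcases hz with rfl | rfl | ⟨y, hy, rfl⟩
        · exact absurd e4 (SimpleGraph.irrefl _)
        · exact absurd rfl e6
        · rw [adj_cc] at e1 e5 ⊢
          rw [adj_cap] at e2 e4
          have hxf : x ≠ f := by rintro rfl; exact hfu hx
          have hyf : y ≠ f := by rintro rfl; exact hfu hy
          rw [hfadj] at e1 e5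
          have hkx := e1.1
          have hvx : ¬ v x := fun h => e2 (Or.inl h)
          have hvy : v y := by
            rcases e4 with h | h
            · exact h
            · exact absurd h.2 hyf
          have hky : ¬ k y := fun h => e5 ⟨h, hyf⟩
          intro h
          rcases hmono x y h with h | h
          · exact hky (h.2.1 hkx)
          · exact hvx (h.2.2 hvy)
    · refine hs_cap old (by simp) ?_ h1 ?_
      · intro x hx
        rw [adj_old]
        exact ⟨fun h => h.2, fun h => ⟨hx, h⟩⟩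
      · intro w
        rw [Finset.mem_insert, Finset.mem_erase, Finset.mem_erase, m₂]
        constructor
        · rintro (rfl | ⟨h1, h2, h3 | h3 | h3⟩)
          · exact Or.inl rfl
          · exact absurd h3 h1
          · exact absurd h3 h2
          · exact Or.inr h3
        · rintro (rfl | ⟨x, hx, rfl⟩)
          · exact Or.inl rfl
          · have hxf : x ≠ f := by rintro rfl; exact hfu hx
            refine Or.inr ⟨by simp, by simpa using hxf, Or.inr (Or.inr ⟨x, hx, rfl⟩)⟩
    · refine hs_cap cap (by simp) ?_ h2 ?_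
      · rintro x ⟨_, hx⟩
        have hxf : x ≠ f := by rintro rfl; exact hfu hx
        rw [adj_cap]
        simp [hxf]
      · intro w
        rw [mem_lk, m₂]
        constructor
        · rintro ⟨rfl | rfl | ⟨x, hx, rfl⟩, h⟩
          · exact Or.inl rfl
          · exact absurd h (SimpleGraph.irrefl _)
          · rw [adj_cc, hfadj] at h
            exact Or.inr ⟨x, ⟨h.1, hx⟩, rfl⟩
        · rintro (rfl | ⟨x, ⟨hk, hx⟩, rfl⟩)
          · refine ⟨Or.inl rfl, ?_⟩
            rw [SimpleGraph.adj_comm, adj_cap]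
            exact Or.inr ⟨trivial, rfl⟩
          · have hxf : x ≠ f := by rintro rfl; exact hfu hx
            refine ⟨Or.inr (Or.inr ⟨x, hx, rfl⟩), ?_⟩
            rw [adj_cc, hfadj]
            exact ⟨hk, hxf⟩
    · refine hs_cap (cell f) ?_ ?_ h4 ?_
      · rintro x ⟨hx, _⟩ h
        simp only [cell.injEq] at h
        subst h
        exact hfu hx
      · rintro x ⟨hx, _⟩
        have hxf : x ≠ f := by rintro rfl; exact hfu hx
        rw [adj_cc, hfadj]
        exact ⟨fun h => h.1, fun h => ⟨h, hxf⟩⟩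
      · intro w
        rw [mem_lk, m₂]
        constructor
        · rintro ⟨rfl | rfl | ⟨x, hx, rfl⟩, h⟩
          · exact absurd h (SimpleGraph.irrefl _)
          · exact Or.inl rfl
          · rw [adj_cap] at h
            have hxf : x ≠ f := by rintro rfl; exact hfu hx
            rcases h with h | h
            · exact Or.inr ⟨x, ⟨hx, h⟩, rfl⟩
            · exact absurd h.2 hxf
        · rintro (rfl | ⟨x, ⟨hx, hv⟩, rfl⟩)
          · refine ⟨Or.inr (Or.inl rfl), ?_⟩
            rw [adj_cap]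
            exact Or.inr ⟨trivial, rfl⟩
          · refine ⟨Or.inr (Or.inr ⟨x, hx, rfl⟩), ?_⟩
            rw [adj_cap]
            exact Or.inl hv
  -- the subdivided graph
  have hsub : HS (AG Γ u k v f False) (n + 1) (insert mid S₂) := by
    refine HS_sub (Γ := AG Γ u k v f True) (a := cell f) (b := cap) ?_ hsplit
    refine ⟨?_, ?_, ?_, ?_, ?_, ?_⟩
    · rw [mc₂]; exact Or.inl rfl
    · rw [m₂]; exact Or.inl rfl
    · rw [SimpleGraph.adj_comm, adj_cap]; exact Or.inr ⟨trivial, rfl⟩
    · rw [m₂]; simp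
    · intro w hw z hz
      rw [m₂] at hw hz
      rcases hw with rfl | rfl | ⟨x, hx, rfl⟩
      · rcases hz with rfl | rfl | ⟨y, hy, rfl⟩
        · simp
        · rw [adj_cap, adj_cap]
          simp [hfv]
        · have hyf : y ≠ f := by rintro rfl; exact hfu hy
          rw [adj_cap, adj_cap]
          simp [hyf]
      · rcases hz with rfl | rfl | ⟨y, hy, rfl⟩
        · rw [SimpleGraph.adj_comm, adj_cap, SimpleGraph.adj_comm, adj_cap]
          simp [hfv]
        · simp
        · have hyf : y ≠ f := by rintro rfl; exact hfu hy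
          rw [adj_cc, adj_cc]
          simp
      · have hxf : x ≠ f := by rintro rfl; exact hfu hx
        rcases hz with rfl | rfl | ⟨y, hy, rfl⟩
        · rw [SimpleGraph.adj_comm, adj_cap, SimpleGraph.adj_comm, adj_cap]
          simp [hxf]
        · rw [adj_cc, adj_cc]
          simp
        · rw [adj_cc, adj_cc]
          simp
    · intro w hw
      rw [m₂] at hw
      rcases hw with rfl | rfl | ⟨x, hx, rfl⟩
      · simp [adj_mid_cap]
      · rw [adj_mid]
        simp
      · have hxf : x ≠ f := by rintro rfl; exact hfu hx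
        rw [adj_mid, adj_cc, adj_cap, hfadj]
        simp only [ne_eq, cell.injEq, hxf, not_false_eq_true, false_or, and_true, and_false,
          or_false, reduceCtorEq]
        exact ⟨fun h => ⟨h.1, h.2.2⟩, fun h => ⟨h.1, hx, h.2⟩⟩
  -- the other side
  have hside : HS (AG Γ u k v f False) (n + 1) (insert mid S₁) := by
    set S' : Finset (Amb C) := Finset.univ.filter fun w =>
      w = mid ∨ ∃ x, (k x ∧ v x) ∧ cell x = w with hS'
    have m' : ∀ w, w ∈ S' ↔ w = mid ∨ ∃ x, (k x ∧ v x) ∧ cell x = w := by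
      intro w; rw [hS', Finset.mem_filter]; simp
    have e : insert mid S₁ = insert cap (insert (cell f) S') := by
      ext w
      rw [Finset.mem_insert, Finset.mem_insert, Finset.mem_insert, m₁, m']
      tauto
    rw [e]
    apply HS_susp
    · rw [m']
      simp only [reduceCtorEq, cell.injEq, exists_eq_right, false_or]
      exact fun h => hfv h.2
    · rw [m']; simp
    · simp
    · rw [SimpleGraph.adj_comm, adj_cap]
      simp [hfv]
    · intro w hw
      rw [m'] at hw
      rcases hw with rfl | ⟨x, ⟨hk, hv⟩, rfl⟩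
      · rw [SimpleGraph.adj_comm, adj_mid]; exact Or.inl rfl
      · rw [adj_cc, hfadj]
        refine ⟨hk, ?_⟩
        rintro rfl
        exact hfv hv
    · intro w hw
      rw [m'] at hw
      rcases hw with rfl | ⟨x, ⟨hk, hv⟩, rfl⟩
      · exact adj_mid_cap.symm
      · rw [adj_cap]; exact Or.inl hv
    · refine hs_cap mid (by simp) ?_ h3 ?_
      · rintro x ⟨hk, hv⟩
        have hxf : x ≠ f := by rintro rfl; exact hfv hv
        rw [adj_mid]
        simp only [hxf, false_or, Set.mem_ofPred_eq]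
        exact ⟨fun h => h.2.1, fun h => ⟨hk, h, hv⟩⟩
      · intro w
        rw [m']
        simp
  have hsum : HS (AG Γ u k v f False) (n + 1) (S₁ ∪ S₂) := by
    apply HS_sum (c := mid) _ _ _ _ hside hsub
    · rw [m₁]; simp
    · rw [m₂]; simp
    · ext w
      rw [mem_lk, Finset.mem_union, Finset.mem_inter]
      cases w with
      | cell x =>
        rw [mc₁, mc₂, adj_mid]
        tauto
      | cap =>
        have : (AG Γ u k v f False).Adj mid cap := adj_mid_cap
        simp [m₁, m₂, this]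
      | old => simp [m₁, m₂]
      | mid => simp [m₁, m₂]
      | aux => simp [m₁, m₂]
    · intro w hw hw2 z hz hz1
      rcases (m₁ w).mp hw with rfl | rfl | ⟨x, hx, rfl⟩
      · exact absurd ((m₂ _).mpr (Or.inl rfl)) hw2
      · exact absurd ((m₂ _).mpr (Or.inr (Or.inl rfl))) hw2
      · rcases (m₂ z).mp hz with rfl | rfl | ⟨y, hy, rfl⟩
        · exact absurd ((m₁ _).mpr (Or.inl rfl)) hz1
        · exact absurd ((m₁ _).mpr (Or.inr (Or.inl rfl))) hz1
        · rw [adj_cc]
          intro h
          rcases hmono x y h with h | h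
          · exact hz1 ((mc₁ y).mpr (Or.inr ⟨h.2.1 hx.1, h.2.2 hx.2⟩))
          · exact hw2 ((mc₂ x).mpr (Or.inr (h.1 hy)))
  refine good_of_embed (capEmb {x | u x ∨ k x} cap (by simp)) ?_ ?_ hsum
  · rintro (_ | x) (_ | y)
    · simp
    · rw [capOff_none]
      change _ ↔ (AG Γ u k v f False).Adj cap (cell y)
      rw [adj_cap]
      simp
    · rw [SimpleGraph.adj_comm, capOff_none]
      change _ ↔ (AG Γ u k v f False).Adj (cell x) cap
      rw [SimpleGraph.adj_comm, adj_cap]
      simp
    · rw [capOff_some]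
      change _ ↔ (AG Γ u k v f False).Adj (cell x) (cell y)
      rw [adj_cc]
  · intro w
    rw [Finset.mem_union, m₁, m₂]
    constructor
    · rintro ((rfl | rfl | ⟨x, hx, rfl⟩) | (rfl | rfl | ⟨x, hx, rfl⟩))
      · exact ⟨none, rfl⟩
      · exact ⟨some ⟨f, Or.inr hf⟩, rfl⟩
      · exact ⟨some ⟨x, Or.inr hx.1⟩, rfl⟩
      · exact ⟨none, rfl⟩
      · exact ⟨some ⟨f, Or.inr hf⟩, rfl⟩
      · exact ⟨some ⟨x, Or.inl hx⟩, rfl⟩
    · rintro ⟨(_ | ⟨x, hx | hx⟩), rfl⟩
      · exact Or.inl (Or.inl rfl)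
      · exact Or.inr (Or.inr (Or.inr ⟨x, hx, rfl⟩))
      · by_cases hxf : x = f
        · subst hxf
          exact Or.inl (Or.inr (Or.inl rfl))
        · rcases hfuv x hx hxf with h | h
          · exact Or.inr (Or.inr (Or.inr ⟨x, h, rfl⟩))
          · exact Or.inl (Or.inr (Or.inr ⟨x, ⟨hx, h⟩, rfl⟩))

end

end Pool.Agent.Poly
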